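import Pool.Agent.Y788.CE.Fin

set_option autoImplicit false

/-!
# Modules with trace zero of the nontrivial group elements
-/

namespace Pool.Agent.Y788.CE

open Pool.Agent.H468R3

variable {V : Type} [AddCommGroup V] [Module ℂ V] (W : Subgroup (V ≃ₗ[ℂ] V)) [Fintype W]

/-- the restricted rational Cherednik algebra `H̄_c(W)` has a cell datum -/
def Cellular (c : W → ℂ) : Prop := Nonempty (CellDatum (RRCA W c))

omit [Fintype W] in
/-- `c` is constant on conjugacy classes -/
def ClassFn (c : W → ℂ) : Prop := ∀ w s : W, c (w * s * w⁻¹) = c s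

/-- the element of `W` in `H̄_c(W)` -/
noncomputable def el (c : W → ℂ) (z : W) : RRCA W c := RingQuot.mkAlgHom ℂ (Rel W c) (G W z)

/-- Every nontrivial element `z` of `W` has trace zero on every finite-dimensional module `M` over
the restricted rational Cherednik algebra `H̄_c(W)`. -/
def TraceZero (c : W → ℂ) : Prop :=
  ∀ (M : Type) [AddCommGroup M] [Module ℂ M] [Module (RRCA W c) M] [IsScalarTower ℂ (RRCA W c) M]
    [FiniteDimensional ℂ M] (z : W), z ≠ 1 → tr M (el W c z) = 0

variable {W}

theorem traceZero {c : W → ℂ} (hW : IsCoxeter W) (hc : ClassFn W c) (h : Cellular W c) :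
    TraceZero W c := by
  obtain ⟨D⟩ := h
  exact fun M i1 i2 i3 i4 i5 z hz => @tr_ne_one V _ _ W _ c hW hc D z hz M i1 i2 i3 i4 i5

end Pool.Agent.Y788.CE
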