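import Pool.Agent.Y788.CE.Tr

set_option autoImplicit false

/-!
# Rotations of dihedral groups have regular characters on the coinvariant algebra
-/

open scoped BigOperators TensorProduct

namespace Pool.Agent.Y788.CE

open Pool.Agent.H468R3
open Pool.Agent.H468R3.Dih (rot refl rot_apply refl_apply rot_rot rot_refl refl_rot refl_refl
  rot_inv refl_inv isReflection_refl not_isReflection_rot p01 p10 rot_one)

/-- the first coordinate -/
noncomputable def X1 : Module.Dual ℂ (ℂ × ℂ) := LinearMap.fst ℂ ℂ ℂ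
/-- the second coordinate -/
noncomputable def X2 : Module.Dual ℂ (ℂ × ℂ) := LinearMap.snd ℂ ℂ ℂ

theorem X1_apply (v : ℂ × ℂ) : X1 v = v.1 := rfl
theorem X2_apply (v : ℂ × ℂ) : X2 v = v.2 := rfl

theorem dual_eq (f : Module.Dual ℂ (ℂ × ℂ)) : f = f (1, 0) • X1 + f (0, 1) • X2 := by
  ext
  · simp [X1, X2]
  · simp [X1, X2]

theorem act_rot_X1 (a : ℂˣ) : act (rot a) X1 = ((a⁻¹ : ℂˣ) : ℂ) • X1 := by
  ext <;> simp [act_apply, rot_inv, rot_apply, X1]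
theorem act_rot_X2 (a : ℂˣ) : act (rot a) X2 = (a : ℂ) • X2 := by
  ext <;> simp [act_apply, rot_inv, rot_apply, X2]
theorem act_refl_X1 (a : ℂˣ) : act (refl a) X1 = (a : ℂ) • X2 := by
  ext <;> simp [act_apply, refl_inv, refl_apply, X1, X2]
theorem act_refl_X2 (a : ℂˣ) : act (refl a) X2 = ((a⁻¹ : ℂˣ) : ℂ) • X1 := by
  ext <;> simp [act_apply, refl_inv, refl_apply, X1, X2]

variable {n : ℕ} [NeZero n]

variable (n) in
/-- the first coordinate in the coinvariant algebra -/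
noncomputable def x : P (Dih.W n) := ξ (Dih.W n) X1
variable (n) in
/-- the second coordinate in the coinvariant algebra -/
noncomputable def y : P (Dih.W n) := ξ (Dih.W n) X2

theorem xy_comm : x n * y n = y n * x n := ξ_comm _ _ _

theorem xy_zero : x n * y n = 0 := by
  have h := ξ_inv (Dih.W n) [X1, X2] (List.cons_ne_nil _ _)
  have h1 : ∀ w : Dih.W n, ([X1, X2].map fun f => ξ (Dih.W n) (act w f)).prod = x n * y n := by
    intro w
    obtain ⟨a, ha, hw | hw⟩ := w.2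
    · simp only [List.map_cons, List.map_nil, List.prod_cons, List.prod_nil, mul_one]
      rw [hw, act_rot_X1, act_rot_X2, map_smul, map_smul, smul_mul_smul_comm]
      simp [x, y]
    · simp only [List.map_cons, List.map_nil, List.prod_cons, List.prod_nil, mul_one]
      rw [hw, act_refl_X1, act_refl_X2, map_smul, map_smul, smul_mul_smul_comm]
      have := xy_comm (n := n)
      simp only [x, y] at this
      simp [x, y, this]
  rw [Finset.sum_congr rfl fun w _ => h1 w, Finset.sum_const, Finset.card_univ,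
    ← Nat.cast_smul_eq_nsmul ℂ] at h
  exact (smul_eq_zero.1 h).resolve_left (by exact_mod_cast Fintype.card_ne_zero)

theorem yx_zero : y n * x n = 0 := by rw [← xy_comm, xy_zero]

theorem xn_yn : x n ^ n + y n ^ n = 0 := by
  have hn : n ≠ 0 := NeZero.ne n
  have h := ξ_inv (Dih.W n) (List.replicate n X1) (by simpa using hn)
  simp only [List.map_replicate, List.prod_replicate] at h
  let s0 : Dih.W n := ⟨refl 1, 1, one_pow n, Or.inr rfl⟩
  have h2 := Equiv.sum_comp (Equiv.mulRight s0) (fun w : Dih.W n => ξ (Dih.W n) (act w X1) ^ n)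
  rw [h] at h2
  have h3 : ∀ w : Dih.W n, ξ (Dih.W n) (act w X1) ^ n +
      ξ (Dih.W n) (act ((w * s0 : Dih.W n) : (ℂ × ℂ) ≃ₗ[ℂ] (ℂ × ℂ)) X1) ^ n =
      x n ^ n + y n ^ n := by
    intro w
    obtain ⟨a, ha, hw | hw⟩ := w.2
    · have e : ((w * s0 : Dih.W n) : (ℂ × ℂ) ≃ₗ[ℂ] (ℂ × ℂ)) = refl a := by
        change (w : (ℂ × ℂ) ≃ₗ[ℂ] (ℂ × ℂ)) * refl 1 = _
        rw [hw, rot_refl, mul_one]
      have ha' : (a : ℂ) ^ n = 1 := by rw [← Units.val_pow_eq_pow_val, ha, Units.val_one]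
      rw [e, hw, act_rot_X1, act_refl_X1, map_smul, map_smul, smul_pow, smul_pow]
      simp [ha', x, y]
    · have e : ((w * s0 : Dih.W n) : (ℂ × ℂ) ≃ₗ[ℂ] (ℂ × ℂ)) = rot a := by
        change (w : (ℂ × ℂ) ≃ₗ[ℂ] (ℂ × ℂ)) * refl 1 = _
        rw [hw, refl_refl, inv_one, mul_one]
      have ha' : (a : ℂ) ^ n = 1 := by rw [← Units.val_pow_eq_pow_val, ha, Units.val_one]
      rw [e, hw, act_rot_X1, act_refl_X1, map_smul, map_smul, smul_pow, smul_pow]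
      simp [ha', x, y, add_comm]
  have h4 : ∑ w : Dih.W n, (x n ^ n + y n ^ n) = 0 := by
    rw [← Finset.sum_congr rfl fun w _ => h3 w, Finset.sum_add_distrib, h, zero_add]
    exact h2
  rw [Finset.sum_const, Finset.card_univ, ← Nat.cast_smul_eq_nsmul ℂ] at h4
  exact (smul_eq_zero.1 h4).resolve_left (by exact_mod_cast Fintype.card_ne_zero)

theorem x_yk (k : ℕ) : x n * y n ^ (k + 1) = 0 := by
  rw [pow_succ', ← mul_assoc, xy_zero, zero_mul]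
theorem y_xk (k : ℕ) : y n * x n ^ (k + 1) = 0 := by
  rw [pow_succ', ← mul_assoc, yx_zero, zero_mul]

/-! ### the operator -/

section op

variable (R : Roots (Dih.W n))

/-- the normalized Demazure operator of a reflection -/
noncomputable def Ds (s : Dih.W n) : P (Dih.W n) →ₗ[ℂ] P (Dih.W n) := R.α s (1, 0) • dm R s

theorem Ds_rot {s : Dih.W n} {a : ℂˣ} (h : (s : (ℂ × ℂ) ≃ₗ[ℂ] (ℂ × ℂ)) = rot a)
    (p : P (Dih.W n)) : Ds R s p = 0 := by
  unfold Ds dm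
  rw [dif_neg (by rw [h]; exact not_isReflection_rot a)]
  simp

theorem Ds_one (s : Dih.W n) : Ds R s 1 = 0 := by
  unfold Ds
  rw [LinearMap.smul_apply, dm_one, smul_zero]

theorem coords {s : Dih.W n} {a : ℂˣ} (h : (s : (ℂ × ℂ) ≃ₗ[ℂ] (ℂ × ℂ)) = refl a) :
    R.α s (1, 0) * X1 (R.β s) = 1 ∧ R.α s (1, 0) * X2 (R.β s) = -((a⁻¹ : ℂˣ) : ℂ) := by
  have hr : IsReflection (s : (ℂ × ℂ) ≃ₗ[ℂ] (ℂ × ℂ)) := by rw [h]; exact isReflection_refl a
  have h1 := (R.h s hr).act X1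
  have h2 := (R.h s hr).act X2
  rw [h, act_refl_X1] at h1
  rw [h, act_refl_X2] at h2
  have e1 := congrArg (fun g : Module.Dual ℂ (ℂ × ℂ) => g (1, 0)) h1
  have e2 := congrArg (fun g : Module.Dual ℂ (ℂ × ℂ) => g (1, 0)) h2
  simp only [LinearMap.smul_apply, LinearMap.sub_apply, X1_apply, X2_apply, smul_eq_mul] at e1 e2
  constructor
  · rw [X1_apply]; linear_combination e1
  · rw [X2_apply]; linear_combination e2

theorem Ds_x {s : Dih.W n} {a : ℂˣ} (h : (s : (ℂ × ℂ) ≃ₗ[ℂ] (ℂ × ℂ)) = refl a)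
    (p : P (Dih.W n)) : Ds R s (x n * p) = (a : ℂ) • (y n * Ds R s p) + p := by
  have hr : IsReflection (s : (ℂ × ℂ) ≃ₗ[ℂ] (ℂ × ℂ)) := by rw [h]; exact isReflection_refl a
  unfold Ds dm x y
  rw [dif_pos hr, LinearMap.smul_apply, LinearMap.smul_apply, dem_ξ, h, act_refl_X1, map_smul,
    smul_add, smul_smul, (coords R h).1, one_smul, smul_mul_assoc, mul_smul_comm, smul_comm]

theorem Ds_y {s : Dih.W n} {a : ℂˣ} (h : (s : (ℂ × ℂ) ≃ₗ[ℂ] (ℂ × ℂ)) = refl a)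
    (p : P (Dih.W n)) : Ds R s (y n * p) =
      ((a⁻¹ : ℂˣ) : ℂ) • (x n * Ds R s p) - ((a⁻¹ : ℂˣ) : ℂ) • p := by
  have hr : IsReflection (s : (ℂ × ℂ) ≃ₗ[ℂ] (ℂ × ℂ)) := by rw [h]; exact isReflection_refl a
  unfold Ds dm x y
  rw [dif_pos hr, LinearMap.smul_apply, LinearMap.smul_apply, dem_ξ, h, act_refl_X2, map_smul,
    smul_add, smul_smul, (coords R h).2, smul_mul_assoc, mul_smul_comm, smul_comm, neg_smul,
    sub_eq_add_neg]

theorem Ds_xk {s : Dih.W n} {a : ℂˣ} (h : (s : (ℂ × ℂ) ≃ₗ[ℂ] (ℂ × ℂ)) = refl a) (k : ℕ) :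
    Ds R s (x n ^ (k + 2)) = x n ^ (k + 1) + (a : ℂ) ^ (k + 1) • y n ^ (k + 1) := by
  induction k with
  | zero =>
    have h1 : Ds R s (x n) = 1 := by
      have := Ds_x R h 1
      rwa [mul_one, Ds_one, mul_zero, smul_zero, zero_add] at this
    rw [zero_add, zero_add, pow_two, Ds_x R h, h1, mul_one, pow_one, pow_one, pow_one, add_comm]
  | succ k ih =>
    rw [pow_succ', Ds_x R h, ih, mul_add, y_xk, zero_add, mul_smul_comm, smul_smul, ← pow_succ',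
      ← pow_succ', add_comm]

theorem Ds_yk {s : Dih.W n} {a : ℂˣ} (h : (s : (ℂ × ℂ) ≃ₗ[ℂ] (ℂ × ℂ)) = refl a) (k : ℕ) :
    Ds R s (y n ^ (k + 2)) = -(((a⁻¹ : ℂˣ) : ℂ) • y n ^ (k + 1)) -
      ((a⁻¹ : ℂˣ) : ℂ) ^ (k + 2) • x n ^ (k + 1) := by
  induction k with
  | zero =>
    have h1 : Ds R s (y n) = -(((a⁻¹ : ℂˣ) : ℂ) • 1) := by
      have := Ds_y R h 1
      rwa [mul_one, Ds_one, mul_zero, smul_zero, zero_sub] at this
    rw [zero_add, zero_add, pow_two, Ds_y R h, h1, pow_one, pow_one, mul_neg, mul_smul_comm,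
      mul_one, smul_neg, smul_smul, pow_two]
    abel
  | succ k ih =>
    rw [pow_succ', Ds_y R h, ih, mul_sub, mul_neg, mul_smul_comm, x_yk, smul_zero, neg_zero,
      zero_sub, mul_smul_comm, smul_neg, smul_smul, ← pow_succ', ← pow_succ']
    abel

/-- the sum of the normalized Demazure operators -/
noncomputable def Yo' : P (Dih.W n) →ₗ[ℂ] P (Dih.W n) :=
  ∑ s : Dih.W n, p01 (s : (ℂ × ℂ) ≃ₗ[ℂ] (ℂ × ℂ)) • Ds R s

theorem p01_refl (a : ℂˣ) : p01 (refl a) = a := by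
  unfold p01; rw [refl_apply]; simp
theorem p10_refl (a : ℂˣ) : p10 (refl a) = ((a⁻¹ : ℂˣ) : ℂ) := by
  unfold p10; rw [refl_apply]; simp

variable (n) in
/-- sums of powers over the reflections -/
noncomputable def Sp (j : ℕ) : ℂ := ∑ s : Dih.W n, cc 1 s * p01 (s : (ℂ × ℂ) ≃ₗ[ℂ] (ℂ × ℂ)) ^ j
variable (n) in
/-- sums of powers over the reflections -/
noncomputable def Sq (j : ℕ) : ℂ := ∑ s : Dih.W n, cc 1 s * p10 (s : (ℂ × ℂ) ≃ₗ[ℂ] (ℂ × ℂ)) ^ j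

theorem cc_one_refl {s : Dih.W n} {a : ℂˣ} (h : (s : (ℂ × ℂ) ≃ₗ[ℂ] (ℂ × ℂ)) = refl a) :
    cc (1 : Dih.W n → ℂ) s = 1 := by
  unfold cc
  rw [if_pos (by rw [h]; exact isReflection_refl a)]
  rfl

theorem Sp_zero (ζ : ℂˣ) (hζ : ζ ^ n = 1) (j : ℕ) (hj : ζ ^ j ≠ 1) : Sp n j = 0 := by
  set r : Dih.W n := ⟨rot ζ, ζ, hζ, Or.inl rfl⟩ with hr
  have g := Equiv.sum_comp (Equiv.mulLeft r)
    (fun s : Dih.W n => cc 1 s * p01 (s : (ℂ × ℂ) ≃ₗ[ℂ] (ℂ × ℂ)) ^ j)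
  have h1 : ∀ s : Dih.W n, cc 1 (r * s) * p01 ((r * s : Dih.W n) : (ℂ × ℂ) ≃ₗ[ℂ] (ℂ × ℂ)) ^ j =
      (ζ : ℂ) ^ j * (cc 1 s * p01 (s : (ℂ × ℂ) ≃ₗ[ℂ] (ℂ × ℂ)) ^ j) := by
    intro s
    obtain ⟨a, ha, hw | hw⟩ := s.2
    · have e : ((r * s : Dih.W n) : (ℂ × ℂ) ≃ₗ[ℂ] (ℂ × ℂ)) = rot (ζ * a) := by
        change rot ζ * (s : (ℂ × ℂ) ≃ₗ[ℂ] (ℂ × ℂ)) = _
        rw [hw, rot_rot]
      rw [Dih.cc_rot _ e, Dih.cc_rot _ hw]
      ring
    · have e : ((r * s : Dih.W n) : (ℂ × ℂ) ≃ₗ[ℂ] (ℂ × ℂ)) = refl (ζ * a) := by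
        change rot ζ * (s : (ℂ × ℂ) ≃ₗ[ℂ] (ℂ × ℂ)) = _
        rw [hw, rot_refl]
      rw [cc_one_refl e, cc_one_refl hw, e, hw, p01_refl, p01_refl]
      push_cast
      ring
  have g' : ∑ s : Dih.W n, cc 1 (r * s) * p01 ((r * s : Dih.W n) : (ℂ × ℂ) ≃ₗ[ℂ] (ℂ × ℂ)) ^ j =
      Sp n j := g
  rw [Finset.sum_congr rfl fun s _ => h1 s, ← Finset.mul_sum] at g'
  have z : (ζ : ℂ) ^ j ≠ 1 := by
    intro h0
    apply hj
    apply Units.ext
    rw [Units.val_pow_eq_pow_val, h0, Units.val_one]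
  have : (1 - (ζ : ℂ) ^ j) * Sp n j = 0 := by
    unfold Sp at g' ⊢
    linear_combination -g'
  exact (mul_eq_zero.1 this).resolve_left (sub_ne_zero.2 z.symm)

theorem Sq_zero (ζ : ℂˣ) (hζ : ζ ^ n = 1) (j : ℕ) (hj : ζ ^ j ≠ 1) : Sq n j = 0 := by
  set r : Dih.W n := ⟨rot ζ, ζ, hζ, Or.inl rfl⟩ with hr
  have g := Equiv.sum_comp (Equiv.mulLeft r)
    (fun s : Dih.W n => cc 1 s * p10 (s : (ℂ × ℂ) ≃ₗ[ℂ] (ℂ × ℂ)) ^ j)
  have h1 : ∀ s : Dih.W n, cc 1 (r * s) * p10 ((r * s : Dih.W n) : (ℂ × ℂ) ≃ₗ[ℂ] (ℂ × ℂ)) ^ j =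
      ((ζ⁻¹ : ℂˣ) : ℂ) ^ j * (cc 1 s * p10 (s : (ℂ × ℂ) ≃ₗ[ℂ] (ℂ × ℂ)) ^ j) := by
    intro s
    obtain ⟨a, ha, hw | hw⟩ := s.2
    · have e : ((r * s : Dih.W n) : (ℂ × ℂ) ≃ₗ[ℂ] (ℂ × ℂ)) = rot (ζ * a) := by
        change rot ζ * (s : (ℂ × ℂ) ≃ₗ[ℂ] (ℂ × ℂ)) = _
        rw [hw, rot_rot]
      rw [Dih.cc_rot _ e, Dih.cc_rot _ hw]
      ring
    · have e : ((r * s : Dih.W n) : (ℂ × ℂ) ≃ₗ[ℂ] (ℂ × ℂ)) = refl (ζ * a) := by
        change rot ζ * (s : (ℂ × ℂ) ≃ₗ[ℂ] (ℂ × ℂ)) = _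
        rw [hw, rot_refl]
      rw [cc_one_refl e, cc_one_refl hw, e, hw, p10_refl, p10_refl, mul_inv]
      push_cast
      ring
  have g' : ∑ s : Dih.W n, cc 1 (r * s) * p10 ((r * s : Dih.W n) : (ℂ × ℂ) ≃ₗ[ℂ] (ℂ × ℂ)) ^ j =
      Sq n j := g
  rw [Finset.sum_congr rfl fun s _ => h1 s, ← Finset.mul_sum] at g'
  have z : ((ζ⁻¹ : ℂˣ) : ℂ) ^ j ≠ 1 := by
    intro h0
    apply hj
    apply Units.ext
    rw [Units.val_inv_eq_inv_val, inv_pow, inv_eq_one] at h0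
    rw [Units.val_pow_eq_pow_val, h0, Units.val_one]
  have : (1 - ((ζ⁻¹ : ℂˣ) : ℂ) ^ j) * Sq n j = 0 := by
    unfold Sq at g' ⊢
    linear_combination -g'
  exact (mul_eq_zero.1 this).resolve_left (sub_ne_zero.2 z.symm)

variable (n) in
/-- the number of reflections -/
noncomputable def N0 : ℂ := ∑ s : Dih.W n, cc 1 s

theorem N0_ne : N0 n ≠ 0 := by
  classical
  unfold N0 cc
  have : ∑ s : Dih.W n, (if IsReflection (s : (ℂ × ℂ) ≃ₗ[ℂ] (ℂ × ℂ)) then (1 : Dih.W n → ℂ) s else 0)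
      = ((Finset.univ.filter fun s : Dih.W n =>
        IsReflection (s : (ℂ × ℂ) ≃ₗ[ℂ] (ℂ × ℂ))).card : ℂ) := by
    rw [← Finset.sum_boole]
    rfl
  rw [this, Nat.cast_ne_zero, Finset.card_ne_zero]
  exact ⟨⟨refl 1, 1, one_pow n, Or.inr rfl⟩, by simp [isReflection_refl]⟩

theorem Sp_n : Sp n n = N0 n := by
  unfold Sp N0
  refine Finset.sum_congr rfl fun s _ => ?_
  obtain ⟨a, ha, hw | hw⟩ := s.2
  · rw [Dih.cc_rot _ hw, zero_mul]
  · rw [hw, p01_refl, ← Units.val_pow_eq_pow_val, ha, Units.val_one, mul_one]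

/-- pointwise form of the operator -/
theorem Yo'_apply (p : P (Dih.W n)) (F : ℂ → ℂ → P (Dih.W n))
    (hF : ∀ (s : Dih.W n) (a : ℂˣ), (s : (ℂ × ℂ) ≃ₗ[ℂ] (ℂ × ℂ)) = refl a →
      (a : ℂ) • Ds R s p = F a ((a⁻¹ : ℂˣ) : ℂ)) :
    Yo' R p = ∑ s : Dih.W n, cc (1 : Dih.W n → ℂ) s •
      F (p01 (s : (ℂ × ℂ) ≃ₗ[ℂ] (ℂ × ℂ))) (p10 (s : (ℂ × ℂ) ≃ₗ[ℂ] (ℂ × ℂ))) := by
  unfold Yo'
  rw [LinearMap.sum_apply]
  refine Finset.sum_congr rfl fun s _ => ?_
  obtain ⟨a, ha, hw | hw⟩ := s.2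
  · rw [LinearMap.smul_apply, Ds_rot R hw, Dih.cc_rot _ hw, smul_zero, zero_smul]
  · rw [LinearMap.smul_apply, cc_one_refl hw, one_smul, hw, p01_refl, p10_refl]
    exact hF s a hw

theorem Yo'_one : Yo' R 1 = 0 := by
  unfold Yo'
  rw [LinearMap.sum_apply]
  refine Finset.sum_eq_zero fun s _ => ?_
  rw [LinearMap.smul_apply, Ds_one, smul_zero]

theorem Yo'_x : Yo' R (x n) = Sp n 1 • 1 := by
  rw [Yo'_apply R (x n) (fun a _ => a • 1)]
  · unfold Sp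
    rw [Finset.sum_smul]
    refine Finset.sum_congr rfl fun s _ => ?_
    rw [smul_smul, pow_one]
  · intro s a h
    have := Ds_x R h 1
    rw [mul_one, Ds_one, mul_zero, smul_zero, zero_add] at this
    rw [this]

theorem Yo'_xk (k : ℕ) : Yo' R (x n ^ (k + 2)) =
    Sp n 1 • x n ^ (k + 1) + Sp n (k + 2) • y n ^ (k + 1) := by
  rw [Yo'_apply R _ (fun a _ => a • x n ^ (k + 1) + a ^ (k + 2) • y n ^ (k + 1))]
  · unfold Sp
    rw [Finset.sum_smul, Finset.sum_smul, ← Finset.sum_add_distrib]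
    refine Finset.sum_congr rfl fun s _ => ?_
    rw [smul_add, smul_smul, smul_smul, pow_one]
  · intro s a h
    rw [Ds_xk R h, smul_add, smul_smul, ← pow_succ']

theorem Yo'_y : Yo' R (y n) = -(N0 n • 1) := by
  rw [Yo'_apply R (y n) (fun _ _ => -1)]
  · unfold N0
    rw [Finset.sum_smul, ← Finset.sum_neg_distrib]
    refine Finset.sum_congr rfl fun s _ => ?_
    rw [smul_neg]
  · intro s a h
    have := Ds_y R h 1
    rw [mul_one, Ds_one, mul_zero, smul_zero, zero_sub] at this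
    rw [this, smul_neg, smul_smul]
    simp

theorem Yo'_yk (k : ℕ) : Yo' R (y n ^ (k + 2)) =
    -(N0 n • y n ^ (k + 1)) - Sq n (k + 1) • x n ^ (k + 1) := by
  rw [Yo'_apply R _ (fun _ b => -(y n ^ (k + 1)) - b ^ (k + 1) • x n ^ (k + 1))]
  · unfold N0 Sq
    rw [Finset.sum_smul, Finset.sum_smul, ← Finset.sum_neg_distrib, ← Finset.sum_sub_distrib]
    refine Finset.sum_congr rfl fun s _ => ?_
    rw [smul_sub, smul_smul, smul_neg]
  · intro s a h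
    rw [Ds_yk R h, smul_sub, smul_neg, smul_smul, smul_smul]
    have e : (a : ℂ) * ((a⁻¹ : ℂˣ) : ℂ) = 1 := by simp
    have e2 : (a : ℂ) * ((a⁻¹ : ℂˣ) : ℂ) ^ (k + 2) = ((a⁻¹ : ℂˣ) : ℂ) ^ (k + 1) := by
      rw [pow_succ' _ (k + 1), ← mul_assoc, e, one_mul]
    rw [e, e2, one_smul]

/-- the operator -/
noncomputable def TO : Module.End ℂ (P (Dih.W n)) := LinearMap.mulLeft ℂ (x n) + Yo' R

theorem TO_apply (p : P (Dih.W n)) : TO R p = x n * p + Yo' R p := rfl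

theorem xn1 : x n ^ (n + 1) = 0 := by
  obtain ⟨m, hm⟩ : ∃ m, n = m + 1 := ⟨n - 1, by have := NeZero.ne n; omega⟩
  have h : x n ^ n = -(y n ^ n) := eq_neg_of_add_eq_zero_left xn_yn
  have h2 : x n * y n ^ n = 0 := by
    conv_lhs => rw [show y n ^ n = y n ^ (m + 1) from congrArg (fun k => y n ^ k) hm]
    exact x_yk m
  rw [pow_succ', h, mul_neg, h2, neg_zero]

theorem yn1 : y n ^ (n + 1) = 0 := by
  obtain ⟨m, hm⟩ : ∃ m, n = m + 1 := ⟨n - 1, by have := NeZero.ne n; omega⟩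
  have h : y n ^ n = -(x n ^ n) := eq_neg_of_add_eq_zero_right xn_yn
  have h2 : y n * x n ^ n = 0 := by
    conv_lhs => rw [show x n ^ n = x n ^ (m + 1) from congrArg (fun k => x n ^ k) hm]
    exact y_xk m
  rw [pow_succ', h, mul_neg, h2, neg_zero]

variable (n) in
/-- the spanning family -/
noncomputable def fam : Fin (n + 1) ⊕ Fin (n + 1) → P (Dih.W n) :=
  Sum.elim (fun k => x n ^ (k : ℕ)) (fun k => y n ^ (k : ℕ))

theorem xk_mem (k : ℕ) : x n ^ k ∈ Submodule.span ℂ (Set.range (fam n)) := by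
  by_cases h : k < n + 1
  · exact Submodule.subset_span ⟨Sum.inl ⟨k, h⟩, rfl⟩
  · have : x n ^ k = 0 := by
      rw [show k = (n + 1) + (k - (n + 1)) by omega, pow_add, xn1, zero_mul]
    rw [this]
    exact Submodule.zero_mem _

theorem yk_mem (k : ℕ) : y n ^ k ∈ Submodule.span ℂ (Set.range (fam n)) := by
  by_cases h : k < n + 1
  · exact Submodule.subset_span ⟨Sum.inr ⟨k, h⟩, rfl⟩
  · have : y n ^ k = 0 := by
      rw [show k = (n + 1) + (k - (n + 1)) by omega, pow_add, yn1, zero_mul]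
    rw [this]
    exact Submodule.zero_mem _

theorem span_top : Submodule.span ℂ (Set.range (fam n)) = ⊤ := by
  rw [Submodule.eq_top_iff']
  intro p
  induction p using P.ind with
  | h1 => simpa using xk_mem (n := n) 0
  | hadd p q hp hq => exact Submodule.add_mem _ hp hq
  | hsmul t p hp => exact Submodule.smul_mem _ t hp
  | hξ f p hp =>
    have key : Submodule.span ℂ (Set.range (fam n)) ≤
        (Submodule.span ℂ (Set.range (fam n))).comap (LinearMap.mulLeft ℂ (ξ (Dih.W n) f)) := by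
      rw [Submodule.span_le]
      rintro _ ⟨k | k, rfl⟩
      · change ξ (Dih.W n) f * x n ^ (k : ℕ) ∈ Submodule.span ℂ (Set.range (fam n))
        rw [dual_eq f, map_add, map_smul, map_smul, add_mul, smul_mul_assoc, smul_mul_assoc]
        refine Submodule.add_mem _ (Submodule.smul_mem _ _ ?_) (Submodule.smul_mem _ _ ?_)
        · change x n * x n ^ (k : ℕ) ∈ _
          rw [← pow_succ']
          exact xk_mem _
        · change y n * x n ^ (k : ℕ) ∈ _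
          rcases Nat.eq_zero_or_pos (k : ℕ) with h | h
          · rw [h, pow_zero, mul_one]
            simpa using yk_mem (n := n) 1
          · rw [show (k : ℕ) = ((k : ℕ) - 1) + 1 by omega, y_xk]
            exact Submodule.zero_mem _
      · change ξ (Dih.W n) f * y n ^ (k : ℕ) ∈ Submodule.span ℂ (Set.range (fam n))
        rw [dual_eq f, map_add, map_smul, map_smul, add_mul, smul_mul_assoc, smul_mul_assoc]
        refine Submodule.add_mem _ (Submodule.smul_mem _ _ ?_) (Submodule.smul_mem _ _ ?_)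
        · change x n * y n ^ (k : ℕ) ∈ _
          rcases Nat.eq_zero_or_pos (k : ℕ) with h | h
          · rw [h, pow_zero, mul_one]
            simpa using xk_mem (n := n) 1
          · rw [show (k : ℕ) = ((k : ℕ) - 1) + 1 by omega, x_yk]
            exact Submodule.zero_mem _
        · change y n * y n ^ (k : ℕ) ∈ _
          rw [← pow_succ']
          exact yk_mem _
    exact key hp

theorem finP : FiniteDimensional ℂ (P (Dih.W n)) :=
  Module.Finite.of_surjective (Fintype.linearCombination ℂ (fam n)) (by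
    rw [← LinearMap.range_eq_top, Fintype.range_linearCombination]
    exact span_top)

/-- the operator is onto -/
theorem TO_range (ζ : ℂˣ) (hζ : ζ ^ n = 1) (hp : ∀ j, 0 < j → j < n → ζ ^ j ≠ 1) (hn : 2 ≤ n) :
    LinearMap.range (TO R) = ⊤ := by
  have hp1 : Sp n 1 = 0 := Sp_zero ζ hζ 1 (hp 1 one_pos (by omega))
  have t1 : TO R 1 = x n := by rw [TO_apply, Yo'_one, add_zero, mul_one]
  have t2 : TO R (x n) = x n ^ 2 := by
    rw [TO_apply, Yo'_x, hp1, zero_smul, add_zero, pow_two]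
  have t3 : ∀ k, k + 2 < n → TO R (x n ^ (k + 2)) = x n ^ (k + 3) := by
    intro k hk
    rw [TO_apply, Yo'_xk, hp1, Sp_zero ζ hζ (k + 2) (hp _ (by omega) hk), zero_smul, zero_smul,
      add_zero, add_zero, ← pow_succ']
  have t4 : TO R (y n) = -(N0 n • 1) := by rw [TO_apply, xy_zero, zero_add, Yo'_y]
  have t5 : ∀ k, k + 2 ≤ n → TO R (y n ^ (k + 2)) = -(N0 n • y n ^ (k + 1)) := by
    intro k hk
    rw [TO_apply, x_yk, zero_add, Yo'_yk, Sq_zero ζ hζ (k + 1) (hp _ (by omega) (by omega)),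
      zero_smul, sub_zero]
  have m1 : (1 : P (Dih.W n)) ∈ LinearMap.range (TO R) := by
    refine ⟨(-(N0 n)⁻¹) • y n, ?_⟩
    rw [map_smul, t4, neg_smul, smul_neg, neg_neg, smul_smul, inv_mul_cancel₀ N0_ne, one_smul]
  have m2 : ∀ k, k + 2 ≤ n → y n ^ (k + 1) ∈ LinearMap.range (TO R) := by
    intro k hk
    refine ⟨(-(N0 n)⁻¹) • y n ^ (k + 2), ?_⟩
    rw [map_smul, t5 k hk, neg_smul, smul_neg, neg_neg, smul_smul, inv_mul_cancel₀ N0_ne, one_smul]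
  have m3 : ∀ k, k ≤ n → x n ^ k ∈ LinearMap.range (TO R) := by
    intro k hk
    match k with
    | 0 => rw [pow_zero]; exact m1
    | 1 => rw [pow_one]; exact ⟨1, t1⟩
    | 2 => exact ⟨x n, t2⟩
    | k + 3 => exact ⟨x n ^ (k + 2), t3 k (by omega)⟩
  have m4 : ∀ k, k ≤ n → y n ^ k ∈ LinearMap.range (TO R) := by
    intro k hk
    rcases Nat.eq_zero_or_pos k with h | h
    · rw [h, pow_zero]; exact m1
    · rcases Nat.lt_or_ge k n with h2 | h2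
      · have := m2 (k - 1) (by omega)
        rwa [show k - 1 + 1 = k by omega] at this
      · have hkn : k = n := le_antisymm hk h2
        have h3 : y n ^ n = -(x n ^ n) := eq_neg_of_add_eq_zero_right xn_yn
        rw [hkn, h3]
        exact Submodule.neg_mem _ (m3 n le_rfl)
  rw [eq_top_iff, ← span_top, Submodule.span_le]
  rintro _ ⟨k | k, rfl⟩
  · exact m3 k (by omega)
  · exact m4 k (by omega)

/-- conjugation of reflections by rotations -/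
theorem p01_conj (a : ℂˣ) (r s : Dih.W n) (hr : (r : (ℂ × ℂ) ≃ₗ[ℂ] (ℂ × ℂ)) = rot a) (b : ℂˣ)
    (hs : (s : (ℂ × ℂ) ≃ₗ[ℂ] (ℂ × ℂ)) = refl b) :
    p01 ((r * s * r⁻¹ : Dih.W n) : (ℂ × ℂ) ≃ₗ[ℂ] (ℂ × ℂ)) = (a : ℂ) ^ 2 * b := by
  have e1 : ((r * s * r⁻¹ : Dih.W n) : (ℂ × ℂ) ≃ₗ[ℂ] (ℂ × ℂ)) = refl (a * b * a) := by
    change (r : (ℂ × ℂ) ≃ₗ[ℂ] (ℂ × ℂ)) * (s : (ℂ × ℂ) ≃ₗ[ℂ] (ℂ × ℂ)) *
      (r : (ℂ × ℂ) ≃ₗ[ℂ] (ℂ × ℂ))⁻¹ = _
    rw [hr, hs, rot_refl, rot_inv, refl_rot, inv_inv]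
  rw [e1, p01_refl]
  push_cast
  ring

theorem TO_σ (a : ℂˣ) (r : Dih.W n) (hr : (r : (ℂ × ℂ) ≃ₗ[ℂ] (ℂ × ℂ)) = rot a)
    (p : P (Dih.W n)) : TO R (σ r p) = (a : ℂ) • σ r (TO R p) := by
  have ha : (a : ℂ) * ((a⁻¹ : ℂˣ) : ℂ) = 1 := by simp
  have h1 : (a : ℂ) • σ r (x n * p) = x n * σ r p := by
    rw [map_mul]
    unfold x
    rw [σξ, hr, act_rot_X1, map_smul, smul_mul_assoc, smul_smul, ha, one_smul]
  have h2 : Yo' R (σ r p) = (a : ℂ) • σ r (Yo' R p) := by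
    unfold Yo'
    rw [LinearMap.sum_apply, LinearMap.sum_apply, map_sum, Finset.smul_sum,
      ← Equiv.sum_comp (MulAut.conj r).toEquiv]
    refine Finset.sum_congr rfl fun s _ => ?_
    change (p01 ((r * s * r⁻¹ : Dih.W n) : (ℂ × ℂ) ≃ₗ[ℂ] (ℂ × ℂ)) • Ds R (r * s * r⁻¹)) (σ r p) =
      (a : ℂ) • σ r ((p01 (s : (ℂ × ℂ) ≃ₗ[ℂ] (ℂ × ℂ)) • Ds R s) p)
    have h3 := σ_dm R s r (((a⁻¹ : ℂˣ) : ℂ) • ((1 : ℂ), (0 : ℂ))) p
    have h4 : (r : (ℂ × ℂ) ≃ₗ[ℂ] (ℂ × ℂ)) (((a⁻¹ : ℂˣ) : ℂ) • ((1 : ℂ), (0 : ℂ))) = (1, 0) := by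
      rw [hr, rot_apply]
      ext <;> simp
    rw [h4, map_smul, smul_eq_mul] at h3
    obtain ⟨b, hb, hw | hw⟩ := s.2
    · have e : ((r * s * r⁻¹ : Dih.W n) : (ℂ × ℂ) ≃ₗ[ℂ] (ℂ × ℂ)) = rot (a * b * a⁻¹) := by
        change (r : (ℂ × ℂ) ≃ₗ[ℂ] (ℂ × ℂ)) * (s : (ℂ × ℂ) ≃ₗ[ℂ] (ℂ × ℂ)) *
          (r : (ℂ × ℂ) ≃ₗ[ℂ] (ℂ × ℂ))⁻¹ = _
        rw [hr, hw, rot_rot, rot_inv, rot_rot]
      rw [LinearMap.smul_apply, LinearMap.smul_apply, Ds_rot R e, Ds_rot R hw, smul_zero, smul_zero,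
        map_zero, smul_zero]
    · rw [LinearMap.smul_apply, LinearMap.smul_apply, p01_conj a r s hr b hw, hw, p01_refl]
      unfold Ds
      rw [LinearMap.smul_apply, LinearMap.smul_apply, ← h3, map_smul, map_smul, smul_smul,
        smul_smul, smul_smul]
      congr 1
      linear_combination ((a : ℂ) * b * R.α s (1, 0)) * ha
  rw [TO_apply, TO_apply, map_add, smul_add, h1, h2]

end op

/-- **Theorem.** If the restricted rational Cherednik algebra of the dihedral group of order `2 n`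
is cellular, then all nontrivial rotations have trace zero on all finite-dimensional modules. -/
theorem rot_trace_zero {c : Dih.W n → ℂ} (hc : ∀ w s : Dih.W n, c (w * s * w⁻¹) = c s)
    (hn : 2 ≤ n) (D : CellDatum (HH c)) (a : ℂˣ) (ha : a ^ n = 1) (ha1 : a ≠ 1)
    (M : Type) [AddCommGroup M] [Module ℂ M] [Module (HH c) M] [IsScalarTower ℂ (HH c) M]
    [FiniteDimensional ℂ M] : tr M ((uni c).g (⟨rot a, a, ha, Or.inl rfl⟩ : Dih.W n)) = 0 := by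
  obtain ⟨R⟩ := exists_roots (fun s hs => (Dih.isCoxeter n).invol s hs)
  have hprim := Complex.isPrimitiveRoot_exp n (NeZero.ne n)
  obtain ⟨ζ, hζ⟩ := hprim.isUnit (NeZero.ne n)
  rw [← hζ] at hprim
  have hζn : ζ ^ n = 1 := by
    apply Units.ext
    rw [Units.val_pow_eq_pow_val, hprim.pow_eq_one, Units.val_one]
  have hζj : ∀ j, 0 < j → j < n → ζ ^ j ≠ 1 := by
    intro j h1 h3 h0
    have h4 : (ζ : ℂ) ^ j = 1 := by
      rw [← Units.val_pow_eq_pow_val, h0, Units.val_one]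
    exact absurd (Nat.le_of_dvd h1 (hprim.dvd_of_pow_eq_one _ h4)) (by omega)
  have hfd : FiniteDimensional ℂ (P (Dih.W n)) := finP
  have hsurj : Function.Surjective (TO R) := LinearMap.range_eq_top.1 (TO_range R ζ hζn hζj hn)
  have hinj : Function.Injective (TO R) := LinearMap.injective_iff_surjective.2 hsurj
  let e : P (Dih.W n) ≃ₗ[ℂ] P (Dih.W n) := LinearEquiv.ofBijective (TO R) ⟨hinj, hsurj⟩
  refine tr_zero R hc D _ (TO R) (e.symm : P (Dih.W n) →ₗ[ℂ] P (Dih.W n)) ?_ ?_ (a : ℂ) ?_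
    (fun p => TO_σ R a _ rfl p) M
  · apply LinearMap.ext
    intro p
    exact e.apply_symm_apply p
  · apply LinearMap.ext
    intro p
    exact e.symm_apply_apply p
  · intro h
    apply ha1
    apply Units.ext
    rw [h, Units.val_one]

/-- **Theorem.** For all `n ≥ 5` with `n ≠ 6` the restricted rational Cherednik algebra of the
dihedral group of order `2 n` is not cellular, for every parameter. -/
theorem not_cellular {c : Dih.W n → ℂ} (hc : ∀ w s : Dih.W n, c (w * s * w⁻¹) = c s)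
    (hn : 5 ≤ n) (hn6 : n ≠ 6) : ¬ Nonempty (CellDatum (RRCA (Dih.W n) c)) := by
  rintro ⟨D⟩
  have hprim := Complex.isPrimitiveRoot_exp n (NeZero.ne n)
  obtain ⟨ζ, hζ⟩ := hprim.isUnit (NeZero.ne n)
  rw [← hζ] at hprim
  have hζn : ζ ^ n = 1 := by
    apply Units.ext
    rw [Units.val_pow_eq_pow_val, hprim.pow_eq_one, Units.val_one]
  have hζ0 : ∀ j, 0 < j → ¬ n ∣ j → ζ ^ j ≠ 1 := by
    intro j h1 h3 h0
    have h4 : (ζ : ℂ) ^ j = 1 := by
      rw [← Units.val_pow_eq_pow_val, h0, Units.val_one]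
    exact h3 (hprim.dvd_of_pow_eq_one _ h4)
  have hζj : ∀ j, 1 ≤ j → j ≤ 3 → ζ ^ (2 * j) ≠ 1 := by
    intro j h1 h3
    apply hζ0 _ (by omega)
    intro h5
    have h6 := Nat.le_of_dvd (by omega) h5
    have h7 : n = 5 ∨ n = 6 := by omega
    rcases h7 with h7 | h7
    · rw [h7] at h5
      have h8 : j = 3 := by omega
      rw [h8] at h5
      omega
    · exact hn6 h7
  let E : Pres (Module.End ℂ (Fin 2 → ℂ)) c := Pres.ofRep
    ((Matrix.toLinAlgEquiv' : Matrix (Fin 2) (Fin 2) ℂ ≃ₐ[ℂ] _).toAlgHom.toRingHom.toMonoidHom.comp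
      (Dih.sqHom n)) (by
    intro v f
    have h := congrArg (Matrix.toLinAlgEquiv' : Matrix (Fin 2) (Fin 2) ℂ ≃ₐ[ℂ] _)
      (Dih.sum_sq hc ζ hζn hζj v f)
    rw [map_zero, map_sum] at h
    refine Eq.trans (Finset.sum_congr rfl fun s _ => ?_) h
    rw [map_smul]
    rfl)
  have key : ∀ a : ℂˣ, a ^ n = 1 → a ≠ 1 → (a : ℂ) ^ 4 = -1 := by
    intro a ha ha1
    have h := rot_trace_zero hc (by omega) D a ha ha1 (Md 2 E)
    rw [tr_Md] at h
    have h2 : LinearMap.trace ℂ (Fin 2 → ℂ) (E.g (⟨rot a, a, ha, Or.inl rfl⟩ : Dih.W n)) =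
        (a : ℂ) ^ 2 + ((a⁻¹ : ℂˣ) : ℂ) ^ 2 := by
      change LinearMap.trace ℂ (Fin 2 → ℂ) (Matrix.toLin' (Dih.sq (rot a))) = _
      rw [Matrix.trace_toLin'_eq, Dih.sq_rot, Matrix.trace_fin_two]
      rfl
    rw [h2] at h
    have h3 : (a : ℂ) * ((a⁻¹ : ℂˣ) : ℂ) = 1 := by simp
    linear_combination (a : ℂ) ^ 2 * h - ((a : ℂ) * ((a⁻¹ : ℂˣ) : ℂ) + 1) * h3
  have k1 := key ζ hζn (by
    have := hζ0 1 one_pos (by intro h; have := Nat.le_of_dvd one_pos h; omega)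
    rwa [pow_one] at this)
  have k2 := key (ζ ^ 2) (by rw [← pow_mul, mul_comm, pow_mul, hζn, one_pow])
    (hζ0 2 two_pos (by intro h; have := Nat.le_of_dvd two_pos h; omega))
  rw [Units.val_pow_eq_pow_val, ← pow_mul, mul_comm, pow_mul, k1] at k2
  norm_num at k2

end Pool.Agent.Y788.CE
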