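import Pool.Agent.Y788.CE.Inst

set_option autoImplicit false

/-!
# Steinberg's theorem for finite Coxeter groups, and the trace criterion for all elements
-/

open scoped BigOperators TensorProduct

namespace Pool.Agent.Y788.CE

open Pool.Agent.H468R3

section

variable {V : Type} [AddCommGroup V] [Module ℂ V] {W : Subgroup (V ≃ₗ[ℂ] V)}
  {m : ℕ} (b : Module.Basis (Fin m) ℂ V)

/-- the real part of a vector -/
noncomputable def Rl (v : V) : V := ∑ i, ((b.repr v i).re : ℂ) • b i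

theorem Rl_repr (v : V) (i : Fin m) : b.repr (Rl b v) i = ((b.repr v i).re : ℂ) :=
  congrFun (b.repr_sum_self fun i => ((b.repr v i).re : ℂ)) i

theorem Rl_isR (v : V) : IsR b (Rl b v) := fun i => by
  rw [Rl_repr, Complex.ofReal_im]

theorem Rl_decomp (v : V) : v = Rl b v + Complex.I • Rl b (-(Complex.I • v)) := by
  apply b.repr.injective
  apply Finsupp.ext
  intro i
  rw [map_add, map_smul, Finsupp.add_apply, Finsupp.smul_apply, Rl_repr, Rl_repr, map_neg,
    map_smul, Finsupp.neg_apply, Finsupp.smul_apply, smul_eq_mul, smul_eq_mul]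
  apply Complex.ext
  · simp
  · simp

variable (hb : ∀ w ∈ W, ∀ i j, (b.repr (w (b j)) i).im = 0)

theorem repr_z (z : W) (x : V) (j : Fin m) : b.repr ((z : V ≃ₗ[ℂ] V) x) j =
    ∑ i, b.repr x i * b.repr ((z : V ≃ₗ[ℂ] V) (b i)) j := by
  conv_lhs => rw [← b.sum_repr x]
  rw [map_sum, map_sum, Finsupp.finsetSum_apply]
  refine Finset.sum_congr rfl fun i _ => ?_
  rw [map_smul, map_smul, Finsupp.smul_apply, smul_eq_mul]

include hb in
theorem Rl_fix (z : W) {v : V} (h : (z : V ≃ₗ[ℂ] V) v = v) :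
    (z : V ≃ₗ[ℂ] V) (Rl b v) = Rl b v := by
  apply b.repr.injective
  apply Finsupp.ext
  intro j
  have h1 := repr_z b z v j
  rw [h] at h1
  rw [repr_z, Rl_repr, h1, Complex.re_sum, Complex.ofReal_sum]
  refine Finset.sum_congr rfl fun i _ => ?_
  rw [Rl_repr]
  have h2 := hb z z.2 j i
  apply Complex.ext
  · rw [Complex.re_ofReal_mul, Complex.ofReal_re, Complex.mul_re, h2]
    ring
  · rw [Complex.im_ofReal_mul, h2, Complex.ofReal_im, mul_zero]

include hb in
theorem exists_single (R : Roots W) (z s : W) (hs : IsReflection (s : V ≃ₗ[ℂ] V))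
    (h : ∃ v, (z : V ≃ₗ[ℂ] V) v = v ∧ (s : V ≃ₗ[ℂ] V) v ≠ v) :
    ∃ v, IsR b v ∧ (z : V ≃ₗ[ℂ] V) v = v ∧ R.α s v ≠ 0 := by
  obtain ⟨v, h1, h2⟩ := h
  have h3 : R.α s v ≠ 0 := by
    intro h0
    apply h2
    rw [(R.h s hs).eq, h0, zero_smul, sub_zero]
  by_cases h4 : R.α s (Rl b v) = 0
  · refine ⟨Rl b (-(Complex.I • v)), Rl_isR b _, Rl_fix b hb z ?_, ?_⟩
    · rw [map_neg, map_smul, h1]
    · intro h5
      apply h3
      rw [Rl_decomp b v, map_add, map_smul, h4, h5, smul_zero, add_zero]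
  · exact ⟨_, Rl_isR b v, Rl_fix b hb z h1, h4⟩

include hb in
theorem exists_reg (R : Roots W) (z : W)
    (h : ∀ s : W, IsReflection (s : V ≃ₗ[ℂ] V) →
      ∃ v, (z : V ≃ₗ[ℂ] V) v = v ∧ (s : V ≃ₗ[ℂ] V) v ≠ v) (T : Finset W)
    (hT : ∀ s ∈ T, IsReflection (s : V ≃ₗ[ℂ] V)) :
    ∃ v, IsR b v ∧ (z : V ≃ₗ[ℂ] V) v = v ∧ ∀ s ∈ T, R.α s v ≠ 0 := by
  classical
  induction T using Finset.induction with
  | empty =>
    refine ⟨0, fun i => by rw [map_zero, Finsupp.zero_apply, Complex.zero_im], map_zero _, ?_⟩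
    intro s hs
    exact absurd hs (Finset.notMem_empty s)
  | insert s T hsT ih =>
    obtain ⟨v, hv1, hv2, hv3⟩ := ih fun t ht => hT t (Finset.mem_insert_of_mem ht)
    have hs := hT s (Finset.mem_insert_self s T)
    obtain ⟨u, hu1, hu2, hu3⟩ := exists_single b hb R z s hs (h s hs)
    obtain ⟨τ, hτ⟩ := Infinite.exists_notMem_finset
      ((insert s T).image fun t => (-(R.α t v) / R.α t u).re)
    refine ⟨v + (τ : ℂ) • u, ?_, ?_, ?_⟩
    · intro i
      rw [map_add, map_smul, Finsupp.add_apply, Finsupp.smul_apply, smul_eq_mul, Complex.add_im,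
        Complex.im_ofReal_mul, hv1 i, hu1 i]
      ring
    · rw [map_add, map_smul, hv2, hu2]
    · intro t ht h0
      rw [map_add, map_smul, smul_eq_mul] at h0
      by_cases h1 : R.α t u = 0
      · rw [h1, mul_zero, add_zero] at h0
        rcases Finset.mem_insert.1 ht with h2 | h2
        · rw [h2] at h1
          exact hu3 h1
        · exact hv3 t h2 h0
      · apply hτ
        rw [Finset.mem_image]
        refine ⟨t, ht, ?_⟩
        have h2 : -(R.α t v) / R.α t u = (τ : ℂ) := by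
          rw [div_eq_iff h1]
          linear_combination -h0
        rw [h2, Complex.ofReal_re]

end

/-- **Theorem (Steinberg).** For every nontrivial element `z` of a finite Coxeter group there is a
reflection in the group which fixes all the vectors fixed by `z`. -/
theorem steinberg {V : Type} [AddCommGroup V] [Module ℂ V] {W : Subgroup (V ≃ₗ[ℂ] V)}
    [Fintype W] (hW : IsCoxeter W) (z : W) (hz : z ≠ 1) :
    ∃ s : W, IsReflection (s : V ≃ₗ[ℂ] V) ∧
      ∀ v, (z : V ≃ₗ[ℂ] V) v = v → (s : V ≃ₗ[ℂ] V) v = v := by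
  by_contra hcon
  push Not at hcon
  obtain ⟨R⟩ := exists_roots (fun s hs => hW.invol s hs)
  have hinv := fun s hs => hW.invol s hs
  have hcl := hW.2.1
  obtain ⟨-, -, m, b, hb⟩ := hW
  obtain ⟨v, hv1, hv2, hv3⟩ := exists_reg b hb R z hcon (Rfl W) (fun s hs => (mem_Rfl s).1 hs)
  have hfin : Finite W := inferInstance
  apply hz
  refine (dat b hb R hinv hv1 fun s hs => hv3 s ((mem_Rfl s).2 hs)).free ?_ z ?_
  · apply Subgroup.map_injective W.subtype_injective
    rw [MonoidHom.map_closure, ← MonoidHom.range_eq_map, W.range_subtype]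
    have h1 : W.subtype '' (Rfl W : Set W) = {s | s ∈ W ∧ IsReflection s} := by
      ext s
      constructor
      · rintro ⟨t, ht, rfl⟩
        exact ⟨t.2, (mem_Rfl t).1 ht⟩
      · rintro ⟨h2, h3⟩
        exact ⟨⟨s, h2⟩, (mem_Rfl _).2 h3, rfl⟩
    rw [h1, hcl]
  · intro u
    rw [evr_apply, evr_apply, rr_apply, act_apply]
    have h1 : ((z : V ≃ₗ[ℂ] V)⁻¹ : V ≃ₗ[ℂ] V) v = v := by
      conv_lhs => rw [← hv2]
      exact (z : V ≃ₗ[ℂ] V).symm_apply_apply v
    rw [h1]

/-- **Theorem.** If `W` is a finite Coxeter group and `H̄_c(W)` is cellular, then every nontrivial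
element of `W` has trace zero on every finite-dimensional module. -/
theorem tr_ne_one {V : Type} [AddCommGroup V] [Module ℂ V] {W : Subgroup (V ≃ₗ[ℂ] V)}
    [Fintype W] {c : W → ℂ} (hW : IsCoxeter W) (hc : ∀ w s : W, c (w * s * w⁻¹) = c s)
    (D : CellDatum (HH c)) (z : W) (hz : z ≠ 1)
    (M : Type) [AddCommGroup M] [Module ℂ M] [Module (HH c) M] [IsScalarTower ℂ (HH c) M]
    [FiniteDimensional ℂ M] : tr M ((uni c).g z) = 0 := by
  obtain ⟨s, hs, hfix⟩ := steinberg hW z hz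
  exact tr_fix hW hc D z s hs hfix M

end Pool.Agent.Y788.CE
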