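import Pool.Agent.Y788.CE.Tr

set_option autoImplicit false

/-!
# The trace criterion for all elements of finite Coxeter groups
-/

open scoped BigOperators TensorProduct

namespace Pool.Agent.Y788.CE

open Pool.Agent.H468R3

section

variable {V : Type} [AddCommGroup V] [Module ℂ V] (W : Subgroup (V ≃ₗ[ℂ] V)) [Fintype W]

/-- an invariant bilinear form on the dual space -/
noncomputable def Bf {m : ℕ} (b : Module.Basis (Fin m) ℂ V) (f h : Module.Dual ℂ V) : ℂ :=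
  ∑ g : W, ∑ i, f ((g : V ≃ₗ[ℂ] V) (b i)) * h ((g : V ≃ₗ[ℂ] V) (b i))

variable {m : ℕ} (b : Module.Basis (Fin m) ℂ V)

theorem Bf_act (w : W) (f h : Module.Dual ℂ V) :
    Bf W b (act (w : V ≃ₗ[ℂ] V) f) (act (w : V ≃ₗ[ℂ] V) h) = Bf W b f h :=
  Equiv.sum_comp (Equiv.mulLeft w⁻¹)
    (fun g : W => ∑ i, f ((g : V ≃ₗ[ℂ] V) (b i)) * h ((g : V ≃ₗ[ℂ] V) (b i)))

theorem Bf_comm (f h : Module.Dual ℂ V) : Bf W b f h = Bf W b h f :=
  Finset.sum_congr rfl fun _ _ => Finset.sum_congr rfl fun _ _ => mul_comm _ _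

theorem Bf_sub (f f' h : Module.Dual ℂ V) : Bf W b (f - f') h = Bf W b f h - Bf W b f' h := by
  unfold Bf
  rw [← Finset.sum_sub_distrib]
  refine Finset.sum_congr rfl fun g _ => ?_
  rw [← Finset.sum_sub_distrib]
  refine Finset.sum_congr rfl fun i _ => ?_
  rw [LinearMap.sub_apply]
  ring

theorem Bf_smul (t : ℂ) (f h : Module.Dual ℂ V) : Bf W b (t • f) h = t * Bf W b f h := by
  unfold Bf
  rw [Finset.mul_sum]
  refine Finset.sum_congr rfl fun g _ => ?_
  rw [Finset.mul_sum]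
  refine Finset.sum_congr rfl fun i _ => ?_
  rw [LinearMap.smul_apply, smul_eq_mul]
  ring

theorem Bf_sub' (f h h' : Module.Dual ℂ V) : Bf W b f (h - h') = Bf W b f h - Bf W b f h' := by
  rw [Bf_comm, Bf_sub, Bf_comm W b h, Bf_comm W b h']

theorem Bf_smul' (t : ℂ) (f h : Module.Dual ℂ V) : Bf W b f (t • h) = t * Bf W b f h := by
  rw [Bf_comm, Bf_smul, Bf_comm W b h]

variable {W}

theorem Bf_pos (hb : ∀ w ∈ W, ∀ i j, (b.repr (w (b j)) i).im = 0) (s : W)
    {α : Module.Dual ℂ V} {β : V} (h : RootOf (s : V ≃ₗ[ℂ] V) α β) : Bf W b α α ≠ 0 := by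
  have hβ : β ≠ 0 := by
    intro h0
    have := h.two
    rw [h0, map_zero] at this
    exact two_ne_zero this.symm
  obtain ⟨j, hj⟩ : ∃ j, b.repr β j ≠ 0 := by
    by_contra h0
    push Not at h0
    apply hβ
    apply b.repr.injective
    rw [map_zero]
    exact Finsupp.ext h0
  have hreal : ∀ (g : W) (i : Fin m), (α ((g : V ≃ₗ[ℂ] V) (b i)) * b.repr β j).im = 0 := by
    intro g i
    have h1 := hb g g.2 j i
    have h2 := hb (s * g) (W.mul_mem s.2 g.2) j i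
    have h3 : ((s : V ≃ₗ[ℂ] V) * (g : V ≃ₗ[ℂ] V)) (b i) =
        (g : V ≃ₗ[ℂ] V) (b i) - α ((g : V ≃ₗ[ℂ] V) (b i)) • β := h.eq _
    rw [h3, map_sub, map_smul, Finsupp.sub_apply, Finsupp.smul_apply, Complex.sub_im, h1,
      smul_eq_mul, zero_sub, neg_eq_zero] at h2
    exact h2
  intro h0
  have h4 : Bf W b α α * (b.repr β j) ^ 2 =
      ((∑ g : W, ∑ i, (α ((g : V ≃ₗ[ℂ] V) (b i)) * b.repr β j).re ^ 2 : ℝ) : ℂ) := by
    unfold Bf
    push_cast
    rw [Finset.sum_mul]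
    refine Finset.sum_congr rfl fun g _ => ?_
    rw [Finset.sum_mul]
    refine Finset.sum_congr rfl fun i _ => ?_
    have h5 : (((α ((g : V ≃ₗ[ℂ] V) (b i)) * b.repr β j).re : ℝ) : ℂ) =
        α ((g : V ≃ₗ[ℂ] V) (b i)) * b.repr β j := by
      apply Complex.ext
      · rw [Complex.ofReal_re]
      · rw [Complex.ofReal_im, hreal]
    rw [h5]
    ring
  rw [h0, zero_mul, eq_comm, Complex.ofReal_eq_zero, Finset.sum_eq_zero_iff_of_nonneg
    (fun g _ => Finset.sum_nonneg fun i _ => sq_nonneg _)] at h4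
  have h6 : ∀ i, α (b i) = 0 := by
    intro i
    have h7 := h4 1 (Finset.mem_univ _)
    rw [Finset.sum_eq_zero_iff_of_nonneg (fun i _ => sq_nonneg _)] at h7
    have h8 := h7 i (Finset.mem_univ _)
    rw [sq_eq_zero_iff] at h8
    have h9 : α (((1 : W) : V ≃ₗ[ℂ] V) (b i)) * b.repr β j = 0 := Complex.ext h8 (hreal 1 i)
    exact (mul_eq_zero.1 h9).resolve_right hj
  have h10 : α = 0 := b.ext fun i => by rw [h6, LinearMap.zero_apply]
  have := h.two
  rw [h10, LinearMap.zero_apply] at this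
  exact two_ne_zero this.symm

theorem beta_one (hb : ∀ w ∈ W, ∀ i j, (b.repr (w (b j)) i).im = 0) (z s : W)
    {α f : Module.Dual ℂ V} {β : V} (h : RootOf (s : V ≃ₗ[ℂ] V) α β)
    (hf : f - act (z : V ≃ₗ[ℂ] V) f = α) : f β = 1 := by
  have h0 := Bf_pos b hb s h
  have h1 := Bf_act W b z f f
  have h2 : act (z : V ≃ₗ[ℂ] V) f = f - α := by rw [← hf]; abel
  rw [h2, Bf_sub, Bf_sub', Bf_sub', Bf_comm W b α f] at h1
  have h3 := Bf_act W b s f α
  rw [h.act_root, h.act, ← neg_one_smul ℂ α, Bf_smul', Bf_sub, Bf_smul] at h3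
  have h4 : (f β - 1) * Bf W b α α = 0 := by linear_combination h3 - h1
  exact sub_eq_zero.1 ((mul_eq_zero.1 h4).resolve_right h0)

/-- the image of `1 - z` contains the root of every reflection fixing the fixed vectors of `z` -/
theorem exists_f (z s : W) {α : Module.Dual ℂ V} {β : V} (h : RootOf (s : V ≃ₗ[ℂ] V) α β)
    (hfix : ∀ v, (z : V ≃ₗ[ℂ] V) v = v → (s : V ≃ₗ[ℂ] V) v = v) :
    ∃ f : Module.Dual ℂ V, f - act (z : V ≃ₗ[ℂ] V) f = α := by
  have hβ : β ≠ 0 := by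
    intro h0
    have := h.two
    rw [h0, map_zero] at this
    exact two_ne_zero this.symm
  set A : V →ₗ[ℂ] V := LinearMap.id - (((z : V ≃ₗ[ℂ] V)⁻¹ : V ≃ₗ[ℂ] V) : V →ₗ[ℂ] V) with hA
  have h1 : α ∈ (LinearMap.ker A).dualAnnihilator := by
    rw [Submodule.mem_dualAnnihilator]
    intro v hv
    have h2 : v - ((z : V ≃ₗ[ℂ] V)⁻¹ : V ≃ₗ[ℂ] V) v = 0 := hv
    have h3 : (z : V ≃ₗ[ℂ] V) v = v := by
      have h4 : v = ((z : V ≃ₗ[ℂ] V)⁻¹ : V ≃ₗ[ℂ] V) v := sub_eq_zero.1 h2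
      conv_lhs => rw [h4]
      exact (z : V ≃ₗ[ℂ] V).apply_symm_apply v
    have h5 := hfix v h3
    rw [h.eq, sub_eq_self] at h5
    exact (smul_eq_zero.1 h5).resolve_right hβ
  rw [← LinearMap.range_dualMap_eq_dualAnnihilator_ker] at h1
  obtain ⟨f, hf⟩ := h1
  refine ⟨f, ?_⟩
  rw [← hf]
  ext v
  change f v - f (((z : V ≃ₗ[ℂ] V)⁻¹ : V ≃ₗ[ℂ] V) v) = f (v - ((z : V ≃ₗ[ℂ] V)⁻¹ : V ≃ₗ[ℂ] V) v)
  rw [map_sub]

variable {c : W → ℂ} (R : Roots W) (hc : ∀ w s : W, c (w * s * w⁻¹) = c s)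

theorem P_id (z s : W) (hs : IsReflection (s : V ≃ₗ[ℂ] V)) (f : Module.Dual ℂ V)
    (hf : f - act (z : V ≃ₗ[ℂ] V) f = R.α s) (hfβ : f (R.β s) = 1) (p : P W) :
    σ z p = ξ W f * dm R s (σ z p) - dm R s (σ z (ξ W f * p)) := by
  have h2 : act (z : V ≃ₗ[ℂ] V) f = f - R.α s := by rw [← hf]; abel
  unfold dm
  rw [dif_pos hs, map_mul, σξ, dem_ξ', h2, map_sub, sub_mul, root_dem, LinearMap.sub_apply, hfβ,
    (R.h s hs).two]
  module

include R hc in
theorem trace_gen [FiniteDimensional ℂ (HH c)] (z z' s : W) (hs : IsReflection (s : V ≃ₗ[ℂ] V))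
    (f : Module.Dual ℂ V) (hf : f - act (z : V ≃ₗ[ℂ] V) f = R.α s) (hfβ : f (R.β s) = 1) :
    LinearMap.trace ℂ (HH c) (CellDatum.bimul ((uni c).g z) ((uni c).g z')) = 0 := by
  set F : Module.End ℂ (HH c) := CellDatum.bimul ((uni c).g z) ((uni c).g z') with hF
  set X : Module.End ℂ (HH c) := op R hc (LinearMap.mulLeft ℂ (ξ W f)) with hX
  set D : Module.End ℂ (HH c) := op R hc (dm R s) with hD
  have key : F = X * (D * F) - (D * F) * X := by
    apply LinearMap.ext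
    intro a
    rw [LinearMap.sub_apply, Module.End.mul_apply, Module.End.mul_apply, Module.End.mul_apply,
      Module.End.mul_apply, hX, op_apply, hD, jj_op, op_apply, hF, jj_cj2, jj_cj2, jj_op,
      ← map_sub]
    conv_lhs => rw [← mm_jj R hc a, ← mm_cj2]
    congr 1
    generalize jj R hc a = e
    induction e using TensorProduct.induction_on with
    | zero => simp only [map_zero, sub_zero]
    | tmul p b =>
      change (σ z p) ⊗ₜ[ℂ] (CellDatum.bimul ((uni c).g z) ((uni c).g z') b) =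
        (ξ W f * dm R s (σ z p)) ⊗ₜ[ℂ] (CellDatum.bimul ((uni c).g z) ((uni c).g z') b) -
        (dm R s (σ z (ξ W f * p))) ⊗ₜ[ℂ] (CellDatum.bimul ((uni c).g z) ((uni c).g z') b)
      rw [← TensorProduct.sub_tmul, ← P_id R z s hs f hf hfβ]
    | add e e' he he' =>
      conv_lhs => rw [map_add, he, he']
      simp only [map_add]
      abel
  rw [key, map_sub, LinearMap.trace_mul_comm, sub_self]

end

/-- **Criterion.** If `H̄_c(W)` is cellular, then every element `z` of `W` such that some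
reflection of `W` fixes all the vectors fixed by `z` has trace zero on every finite-dimensional
module. -/
theorem tr_fix {V : Type} [AddCommGroup V] [Module ℂ V] {W : Subgroup (V ≃ₗ[ℂ] V)}
    [Fintype W] {c : W → ℂ} (hW : IsCoxeter W) (hc : ∀ w s : W, c (w * s * w⁻¹) = c s)
    (D : CellDatum (HH c)) (z s : W) (hs : IsReflection (s : V ≃ₗ[ℂ] V))
    (hfix : ∀ v, (z : V ≃ₗ[ℂ] V) v = v → (s : V ≃ₗ[ℂ] V) v = v)
    (M : Type) [AddCommGroup M] [Module ℂ M] [Module (HH c) M] [IsScalarTower ℂ (HH c) M]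
    [FiniteDimensional ℂ M] : tr M ((uni c).g z) = 0 := by
  obtain ⟨R⟩ := exists_roots (fun s hs => hW.invol s hs)
  obtain ⟨-, -, m, b, hb⟩ := hW
  obtain ⟨f, hf⟩ := exists_f z s (R.h s hs) hfix
  have hfd : FiniteDimensional ℂ (HH c) := Module.Finite.of_basis D.C
  have hfin : Finite W := inferInstance
  refine tr_eq_zero D ((uni c).g z) ((uni c).g z⁻¹) ?_ (orderOf z) (orderOf_pos z) ?_
    (trace_gen R hc z z⁻¹ s hs f hf (beta_one b hb z s (R.h s hs) hf)) M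
  · rw [← map_mul, mul_inv_cancel, map_one]
  · rw [← map_pow, pow_orderOf_eq_one, map_one]

end Pool.Agent.Y788.CE
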