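import Mathlib

set_option autoImplicit false

/-!
# Finite real reflection groups act freely on chambers
-/

open scoped BigOperators

namespace Pool.Agent.Y788.CE

/-- a group generated by reflections with roots normalized by a regular vector -/
structure Dat {G E : Type} [Group G] [AddCommGroup E] [Module ℝ E] (ρ : G →* Module.End ℝ E)
    (B : E →ₗ[ℝ] E →ₗ[ℝ] ℝ) (ev : E →ₗ[ℝ] ℝ) (Rf : Finset G) (a : G → E) : Prop where
  ev1 : ∀ s ∈ Rf, ev (a s) = 1
  cj : ∀ w, ∀ s ∈ Rf, w * s * w⁻¹ ∈ Rf ∧ ∃ t : ℝ, ρ w (a s) = t • a (w * s * w⁻¹)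
  rf : ∀ s ∈ Rf, ∀ t ∈ Rf, ∃ k : ℝ, ρ s (a t) = a t - k • a s
  ng : ∀ s ∈ Rf, ρ s (a s) = - a s
  inv : ∀ w x y, B (ρ w x) (ρ w y) = B x y
  pos : ∀ x, x ≠ 0 → 0 < B x x
  sq : ∀ s ∈ Rf, s * s = 1
  inj : ∀ s ∈ Rf, ∀ t ∈ Rf, a s = a t → s = t

namespace Dat

variable {G E : Type} [Group G] [AddCommGroup E] [Module ℝ E] {ρ : G →* Module.End ℝ E}
  {B : E →ₗ[ℝ] E →ₗ[ℝ] ℝ} {ev : E →ₗ[ℝ] ℝ} {Rf : Finset G} {a : G → E}
  (D : Dat ρ B ev Rf a)

include D

theorem ne {s : G} (hs : s ∈ Rf) : a s ≠ 0 := by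
  intro h
  have := D.ev1 s hs
  rw [h, map_zero] at this
  exact zero_ne_one this

theorem cj' (w : G) {s : G} (hs : s ∈ Rf) :
    ρ w (a s) = ev (ρ w (a s)) • a (w * s * w⁻¹) := by
  obtain ⟨h1, t, ht⟩ := D.cj w s hs
  have h2 : ev (ρ w (a s)) = t := by rw [ht, map_smul, D.ev1 _ h1, smul_eq_mul, mul_one]
  rw [h2, ht]

theorem ev_ne (w : G) {s : G} (hs : s ∈ Rf) : ev (ρ w (a s)) ≠ 0 := by
  intro h
  have h1 := D.cj' w hs
  rw [h, zero_smul] at h1
  apply D.ne hs
  have h2 : ρ w⁻¹ (ρ w (a s)) = a s := by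
    rw [← Module.End.mul_apply, ← map_mul, inv_mul_cancel, map_one, Module.End.one_apply]
  rw [← h2, h1, map_zero]

theorem rf' {s t : G} (hs : s ∈ Rf) (ht : t ∈ Rf) :
    ρ s (a t) = a t - (1 - ev (ρ s (a t))) • a s := by
  obtain ⟨k, hk⟩ := D.rf s hs t ht
  have h2 : 1 - ev (ρ s (a t)) = k := by
    rw [hk, map_sub, map_smul, D.ev1 _ hs, D.ev1 _ ht, smul_eq_mul, mul_one]
    ring
  rw [h2, hk]

omit D in
/-- the roots of `Δ` generate the positive cone -/
def Gn (Rf : Finset G) (a : G → E) (Δ : Finset G) : Prop :=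
  ∀ s ∈ Rf, ∃ c : G → ℝ, (∀ t, 0 ≤ c t) ∧ a s = ∑ t ∈ Δ, c t • a t

omit D in
theorem exists_min : ∃ Δ ⊆ Rf, Gn Rf a Δ ∧ ∀ Δ' ⊆ Rf, Gn Rf a Δ' → Δ.card ≤ Δ'.card := by
  classical
  have h : (Rf.powerset.filter fun Δ => Gn Rf a Δ).Nonempty := by
    refine ⟨Rf, ?_⟩
    rw [Finset.mem_filter, Finset.mem_powerset]
    refine ⟨subset_rfl, fun s hs => ⟨fun t => if t = s then 1 else 0, ?_, ?_⟩⟩
    · intro t
      change (0 : ℝ) ≤ if t = s then 1 else 0
      split_ifs
      · exact zero_le_one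
      · exact le_rfl
    · simp only [ite_smul, one_smul, zero_smul]
      rw [Finset.sum_ite_eq' Rf s a, if_pos hs]
  obtain ⟨Δ, h1, h2⟩ := Finset.exists_min_image _ (fun Δ : Finset G => Δ.card) h
  rw [Finset.mem_filter, Finset.mem_powerset] at h1
  refine ⟨Δ, h1.1, h1.2, fun Δ' h3 h4 => h2 Δ' ?_⟩
  rw [Finset.mem_filter, Finset.mem_powerset]
  exact ⟨h3, h4⟩

variable {Δ : Finset G} (hΔ : Δ ⊆ Rf) (hg : Gn Rf a Δ)
  (hm : ∀ Δ' ⊆ Rf, Gn Rf a Δ' → Δ.card ≤ Δ'.card)

include hΔ hg hm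

/-- simple reflections permute the other positive roots -/
theorem perm {b s : G} (hb : b ∈ Δ) (hs : s ∈ Rf) (hne : s ≠ b) : 0 < ev (ρ b (a s)) := by
  classical
  by_contra hlt
  have hneg : ev (ρ b (a s)) < 0 := lt_of_le_of_ne (not_lt.1 hlt) (D.ev_ne b hs)
  set l := ev (ρ b (a s)) with hl
  obtain ⟨c, hc0, hc⟩ := hg s hs
  obtain ⟨d, hd0, hd⟩ := hg _ (D.cj b s hs).1
  have e1 := D.cj' b hs
  have e2 := D.rf' (hΔ hb) hs
  rw [← hl] at e1 e2
  set e : G → ℝ := fun t => c t + (-l) * d t with he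
  have he0 : ∀ t, c t ≤ e t := fun t => by
    have := mul_nonneg (neg_nonneg.2 hneg.le) (hd0 t)
    simp only [he]
    linarith
  have e3 : (1 - l) • a b = ∑ t ∈ Δ, e t • a t := by
    have h1 : ∑ t ∈ Δ, e t • a t = a s + (-l) • a (b * s * b⁻¹) := by
      rw [hc, hd, Finset.smul_sum, ← Finset.sum_add_distrib]
      refine Finset.sum_congr rfl fun t _ => ?_
      rw [smul_smul, ← add_smul]
    rw [h1, neg_smul, ← e1, e2]
    abel
  have e4 : (1 - l - e b) • a b = ∑ t ∈ Δ.erase b, e t • a t := by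
    rw [sub_smul, e3, ← Finset.add_sum_erase Δ (fun t => e t • a t) hb]
    abel
  set κ := ∑ t ∈ Δ.erase b, e t with hκ
  have e5 : 1 - l - e b = κ := by
    have h1 := congrArg ev e4
    rw [map_smul, D.ev1 _ (hΔ hb), map_sum, smul_eq_mul, mul_one] at h1
    rw [h1]
    refine Finset.sum_congr rfl fun t ht => ?_
    rw [map_smul, D.ev1 _ (hΔ (Finset.mem_of_mem_erase ht)), smul_eq_mul, mul_one]
  have hκ0 : 0 ≤ κ := Finset.sum_nonneg fun t _ => le_trans (hc0 t) (he0 t)
  rcases hκ0.eq_or_lt with h0 | h0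
  · have h1 : ∀ t ∈ Δ.erase b, e t = 0 :=
      (Finset.sum_eq_zero_iff_of_nonneg fun t _ => le_trans (hc0 t) (he0 t)).1 h0.symm
    have h2 : a s = c b • a b := by
      rw [hc, ← Finset.add_sum_erase Δ (fun t => c t • a t) hb]
      rw [Finset.sum_eq_zero, add_zero]
      intro t ht
      have h3 : c t = 0 := le_antisymm ((he0 t).trans (h1 t ht).le) (hc0 t)
      rw [h3, zero_smul]
    have h3 : c b = 1 := by
      have := congrArg ev h2
      rw [map_smul, D.ev1 _ hs, D.ev1 _ (hΔ hb), smul_eq_mul, mul_one] at this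
      exact this.symm
    rw [h3, one_smul] at h2
    exact hne (D.inj s hs b (hΔ hb) h2)
  · have h1 : a b = ∑ t ∈ Δ.erase b, (κ⁻¹ * e t) • a t := by
      rw [e5] at e4
      have h2 : a b = κ⁻¹ • (κ • a b) := by rw [smul_smul, inv_mul_cancel₀ h0.ne', one_smul]
      rw [h2, e4, Finset.smul_sum]
      exact Finset.sum_congr rfl fun t _ => smul_smul _ _ _
    have h2 : Gn Rf a (Δ.erase b) := by
      intro s' hs'
      obtain ⟨c', hc'0, hc'⟩ := hg s' hs'
      refine ⟨fun t => c' b * (κ⁻¹ * e t) + c' t, fun t => ?_, ?_⟩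
      · have := mul_nonneg (hc'0 b) (mul_nonneg (inv_nonneg.2 h0.le) (le_trans (hc0 t) (he0 t)))
        have := hc'0 t
        positivity
      · rw [hc', ← Finset.add_sum_erase Δ (fun t => c' t • a t) hb]
        simp only [add_smul, Finset.sum_add_distrib]
        congr 1
        conv_lhs => rw [h1]
        rw [Finset.smul_sum]
        exact Finset.sum_congr rfl fun t _ => smul_smul _ _ _
    have h3 := hm _ ((Finset.erase_subset _ _).trans hΔ) h2
    have h4 := Finset.card_erase_lt_of_mem hb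
    omega

/-- every reflection is a product of simple reflections -/
theorem mem_closure [Finite G] {s : G} (hs : s ∈ Rf) : s ∈ Subgroup.closure (Δ : Set G) := by
  obtain ⟨w, hw, hwm⟩ := Set.exists_min_image (Subgroup.closure (Δ : Set G) : Set G)
    (fun w => |ev (ρ w (a s))|) (Set.toFinite _) ⟨1, Subgroup.one_mem _⟩
  have hw' : w ∈ Subgroup.closure (Δ : Set G) := hw
  set t := w * s * w⁻¹ with ht
  have htR : t ∈ Rf := (D.cj w s hs).1
  by_cases htΔ : t ∈ Δ
  · have h1 : s = w⁻¹ * t * w := by rw [ht]; group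
    rw [h1]
    exact Subgroup.mul_mem _ (Subgroup.mul_mem _ (Subgroup.inv_mem _ hw')
      (Subgroup.subset_closure htΔ)) hw'
  · exfalso
    have h1 : ∀ b ∈ Δ, B (a t) (a b) ≤ 0 := by
      intro b hb
      have hbR := hΔ hb
      have h2 := D.perm hΔ hg hm hb htR (fun h => htΔ (h ▸ hb))
      have h3 := hwm (b * w) (Subgroup.mul_mem _ (Subgroup.subset_closure hb) hw')
      have h4 : ev (ρ (b * w) (a s)) = ev (ρ w (a s)) * ev (ρ b (a t)) := by
        rw [map_mul, Module.End.mul_apply]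
        conv_lhs => rw [D.cj' w hs]
        rw [map_smul, map_smul, smul_eq_mul]
      simp only [h4, abs_mul] at h3
      have h5 : 0 < |ev (ρ w (a s))| := abs_pos.2 (D.ev_ne w hs)
      rw [abs_of_pos h2] at h3
      have h6 : 1 ≤ ev (ρ b (a t)) := by
        by_contra h
        push Not at h
        nlinarith
      have h7 := D.inv b (a t) (a b)
      rw [D.rf' hbR htR, D.ng b hbR, map_sub, map_smul, LinearMap.sub_apply, LinearMap.smul_apply,
        map_neg, map_neg, smul_eq_mul] at h7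
      have h8 := D.pos _ (D.ne hbR)
      nlinarith
    obtain ⟨c, hc0, hc⟩ := hg t htR
    have h2 : B (a t) (a t) = ∑ b ∈ Δ, c b * B (a t) (a b) := by
      have h3 := congrArg (B (a t)) hc
      rw [map_sum] at h3
      rw [h3]
      exact Finset.sum_congr rfl fun b _ => by rw [map_smul, smul_eq_mul]
    have h3 : B (a t) (a t) ≤ 0 := by
      rw [h2]
      exact Finset.sum_nonpos fun b hb => mul_nonpos_of_nonneg_of_nonpos (hc0 b) (h1 b hb)
    exact absurd (D.pos _ (D.ne htR)) (not_lt.2 h3)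

/-- the exchange property -/
theorem exchange (l : List G) (hl : ∀ x ∈ l, x ∈ Δ) {b : G} (hb : b ∈ Δ)
    (h : ev (ρ l.prod (a b)) < 0) :
    ∃ l' : List G, (∀ x ∈ l', x ∈ Δ) ∧ l'.length + 1 = l.length ∧ l.prod * b = l'.prod := by
  induction l with
  | nil =>
    rw [List.prod_nil, map_one, Module.End.one_apply, D.ev1 _ (hΔ hb)] at h
    linarith
  | cons x l ih =>
    have hl' : ∀ y ∈ l, y ∈ Δ := fun y hy => hl y (List.mem_cons_of_mem _ hy)
    have hx : x ∈ Δ := hl x List.mem_cons_self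
    rcases lt_or_ge (ev (ρ l.prod (a b))) 0 with h1 | h1
    · obtain ⟨l', h2, h3, h4⟩ := ih hl' h1
      refine ⟨x :: l', ?_, ?_, ?_⟩
      · intro y hy
        rcases List.mem_cons.1 hy with h5 | h5
        · rw [h5]; exact hx
        · exact h2 y h5
      · rw [List.length_cons, List.length_cons, h3]
      · rw [List.prod_cons, List.prod_cons, mul_assoc, h4]
    · have h2 : 0 < ev (ρ l.prod (a b)) := lt_of_le_of_ne h1 (D.ev_ne _ (hΔ hb)).symm
      set t := l.prod * b * l.prod⁻¹ with ht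
      have htR : t ∈ Rf := (D.cj l.prod b (hΔ hb)).1
      have h3 : ev (ρ (x :: l).prod (a b)) = ev (ρ l.prod (a b)) * ev (ρ x (a t)) := by
        rw [List.prod_cons, map_mul, Module.End.mul_apply]
        conv_lhs => rw [D.cj' l.prod (hΔ hb)]
        rw [map_smul, map_smul, smul_eq_mul]
      have h4 : t = x := by
        by_contra h5
        have h6 := D.perm hΔ hg hm hx htR h5
        rw [h3] at h
        exact absurd (mul_pos h2 h6) (not_lt.2 h.le)
      refine ⟨l, hl', rfl, ?_⟩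
      rw [List.prod_cons, ← h4, ht]
      have h7 : l.prod * b * l.prod⁻¹ * l.prod * b = l.prod * (b * b) := by group
      rw [h7, D.sq b (hΔ hb), mul_one]

theorem free_list (n : ℕ) : ∀ l : List G, l.length ≤ n → (∀ x ∈ l, x ∈ Δ) →
    (∀ u, ev (ρ l.prod u) = ev u) → l.prod = 1 := by
  induction n with
  | zero =>
    intro l h1 _ _
    rw [List.length_eq_zero_iff.1 (Nat.le_zero.1 h1), List.prod_nil]
  | succ n ih =>
    intro l h1 h2 h3
    rcases List.eq_nil_or_concat l with h | ⟨l0, b, h⟩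
    · rw [h, List.prod_nil]
    · rw [List.concat_eq_append] at h
      rw [h] at h1 h2 h3 ⊢
      rw [List.length_append, List.length_singleton] at h1
      rw [List.prod_append, List.prod_singleton] at h3 ⊢
      have hb : b ∈ Δ := h2 b (by simp)
      have h4 : ev (ρ l0.prod (a b)) < 0 := by
        have h5 := h3 (a b)
        rw [map_mul, Module.End.mul_apply, D.ng b (hΔ hb), map_neg, map_neg, D.ev1 _ (hΔ hb)] at h5
        linarith
      obtain ⟨l', h5, h6, h7⟩ := D.exchange hΔ hg hm l0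
        (fun x hx => h2 x (List.mem_append_left _ hx)) hb h4
      rw [h7] at h3 ⊢
      exact ih l' (by omega) h5 h3

omit hΔ hg hm in
/-- **Theorem.** Only the identity fixes a regular vector. -/
theorem free [Finite G] (hR : Subgroup.closure (Rf : Set G) = ⊤) (z : G)
    (hz : ∀ u, ev (ρ z u) = ev u) : z = 1 := by
  obtain ⟨Δ, hΔ, hg, hm⟩ := exists_min (Rf := Rf) (a := a)
  have h1 : z ∈ Subgroup.closure (Δ : Set G) := by
    have h2 : Subgroup.closure (Rf : Set G) ≤ Subgroup.closure (Δ : Set G) := by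
      rw [Subgroup.closure_le]
      intro s hs
      exact D.mem_closure hΔ hg hm hs
    apply h2
    rw [hR]
    exact Subgroup.mem_top z
  have h1' : z ∈ (Subgroup.closure (Δ : Set G)).toSubmonoid := h1
  rw [Subgroup.closure_toSubmonoid] at h1'
  obtain ⟨l, hl, rfl⟩ := Submonoid.exists_list_of_mem_closure h1'
  refine D.free_list hΔ hg hm l.length l le_rfl ?_ hz
  intro x hx
  rcases hl x hx with h | h
  · exact h
  · have h0 : x⁻¹ ∈ Δ := h
    have h2 := D.sq _ (hΔ h0)
    have h3 : x⁻¹ = x := by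
      rw [← mul_inv_rev, inv_eq_one] at h2
      exact inv_eq_of_mul_eq_one_left h2
    rw [← h3]
    exact h0

end Dat

end Pool.Agent.Y788.CE
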