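import Pool.Agent.Y788.CE.Gen
import Pool.Agent.Y788.CE.Stein

set_option autoImplicit false

/-!
# Steinberg's theorem for finite Coxeter groups, and the trace criterion for all elements
-/

open scoped BigOperators TensorProduct

namespace Pool.Agent.Y788.CE

open Pool.Agent.H468R3

section

variable {V : Type} [AddCommGroup V] [Module ℂ V] (W : Subgroup (V ≃ₗ[ℂ] V))

/-- the action on the real vector space underlying the dual space -/
noncomputable def rr : W →* Module.End ℝ (Module.Dual ℂ V) where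
  toFun w := (actL (w : V ≃ₗ[ℂ] V)).restrictScalars ℝ
  map_one' := by
    apply LinearMap.ext
    intro f
    exact act_one' f
  map_mul' w w' := by
    apply LinearMap.ext
    intro f
    exact act_mul _ _ f

variable {W}

theorem rr_apply (w : W) (f : Module.Dual ℂ V) : rr W w f = act (w : V ≃ₗ[ℂ] V) f := rfl

/-- real part of the evaluation -/
noncomputable def evr (v : V) : Module.Dual ℂ V →ₗ[ℝ] ℝ where
  toFun f := (f v).re
  map_add' f g := by rw [LinearMap.add_apply, Complex.add_re]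
  map_smul' t f := by
    change ((t : ℂ) • f v).re = t * (f v).re
    rw [smul_eq_mul, Complex.re_ofReal_mul]

theorem evr_apply (v : V) (f : Module.Dual ℂ V) : evr v f = (f v).re := rfl

variable [Fintype W] {m : ℕ} (b : Module.Basis (Fin m) ℂ V)

variable (W) in
/-- the invariant inner product on the dual space -/
noncomputable def Br : Module.Dual ℂ V →ₗ[ℝ] Module.Dual ℂ V →ₗ[ℝ] ℝ :=
  LinearMap.mk₂ ℝ (fun f h => ∑ g : W, ∑ i, (f ((g : V ≃ₗ[ℂ] V) (b i)) *
    (starRingEnd ℂ) (h ((g : V ≃ₗ[ℂ] V) (b i)))).re)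
    (fun f f' h => by
      rw [← Finset.sum_add_distrib]
      refine Finset.sum_congr rfl fun g _ => ?_
      rw [← Finset.sum_add_distrib]
      refine Finset.sum_congr rfl fun i _ => ?_
      rw [LinearMap.add_apply, add_mul, Complex.add_re])
    (fun t f h => by
      rw [smul_eq_mul, Finset.mul_sum]
      refine Finset.sum_congr rfl fun g _ => ?_
      rw [Finset.mul_sum]
      refine Finset.sum_congr rfl fun i _ => ?_
      change (((t : ℂ) • f ((g : V ≃ₗ[ℂ] V) (b i))) * _).re = _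
      rw [smul_eq_mul, mul_assoc, Complex.re_ofReal_mul])
    (fun f h h' => by
      rw [← Finset.sum_add_distrib]
      refine Finset.sum_congr rfl fun g _ => ?_
      rw [← Finset.sum_add_distrib]
      refine Finset.sum_congr rfl fun i _ => ?_
      rw [LinearMap.add_apply, map_add, mul_add, Complex.add_re])
    (fun t f h => by
      rw [smul_eq_mul, Finset.mul_sum]
      refine Finset.sum_congr rfl fun g _ => ?_
      rw [Finset.mul_sum]
      refine Finset.sum_congr rfl fun i _ => ?_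
      change (_ * (starRingEnd ℂ) ((t : ℂ) • h ((g : V ≃ₗ[ℂ] V) (b i)))).re = _
      rw [smul_eq_mul, map_mul, Complex.conj_ofReal, mul_left_comm, Complex.re_ofReal_mul])

theorem Br_apply (f h : Module.Dual ℂ V) : Br W b f h = ∑ g : W, ∑ i,
    (f ((g : V ≃ₗ[ℂ] V) (b i)) * (starRingEnd ℂ) (h ((g : V ≃ₗ[ℂ] V) (b i)))).re := rfl

theorem Br_inv (w : W) (f h : Module.Dual ℂ V) : Br W b (rr W w f) (rr W w h) = Br W b f h :=
  Equiv.sum_comp (Equiv.mulLeft w⁻¹) (fun g : W => ∑ i, (f ((g : V ≃ₗ[ℂ] V) (b i)) *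
    (starRingEnd ℂ) (h ((g : V ≃ₗ[ℂ] V) (b i)))).re)

theorem Br_pos (f : Module.Dual ℂ V) (hf : f ≠ 0) : 0 < Br W b f f := by
  rw [Br_apply]
  have h1 : ∀ z : ℂ, (z * (starRingEnd ℂ) z).re = Complex.normSq z := by
    intro z
    rw [Complex.mul_conj, Complex.ofReal_re]
  simp only [h1]
  by_contra h
  have h2 : ∑ g : W, ∑ i, Complex.normSq (f ((g : V ≃ₗ[ℂ] V) (b i))) = 0 :=
    le_antisymm (not_lt.1 h) (Finset.sum_nonneg fun g _ => Finset.sum_nonneg fun i _ =>
      Complex.normSq_nonneg _)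
  rw [Finset.sum_eq_zero_iff_of_nonneg (fun g _ => Finset.sum_nonneg fun i _ =>
      Complex.normSq_nonneg _)] at h2
  have h3 := h2 1 (Finset.mem_univ _)
  rw [Finset.sum_eq_zero_iff_of_nonneg (fun i _ => Complex.normSq_nonneg _)] at h3
  apply hf
  apply b.ext
  intro i
  exact Complex.normSq_eq_zero.1 (h3 i (Finset.mem_univ _))

/-- real vectors -/
def IsR (v : V) : Prop := ∀ i, (b.repr v i).im = 0

variable (hb : ∀ w ∈ W, ∀ i j, (b.repr (w (b j)) i).im = 0)

include hb in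
omit [Fintype W] in
theorem IsR_smul (w : W) {v : V} (hv : IsR b v) : IsR b ((w : V ≃ₗ[ℂ] V) v) := by
  intro i
  have h1 : (w : V ≃ₗ[ℂ] V) v = ∑ j, b.repr v j • (w : V ≃ₗ[ℂ] V) (b j) := by
    conv_lhs => rw [← b.sum_repr v]
    rw [map_sum]
    exact Finset.sum_congr rfl fun j _ => map_smul _ _ _
  rw [h1, map_sum, Finsupp.finsetSum_apply, Complex.im_sum]
  refine Finset.sum_eq_zero fun j _ => ?_
  rw [map_smul, Finsupp.smul_apply, smul_eq_mul, Complex.mul_im, hv j, hb w w.2 i j]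
  ring

include hb in
omit [Fintype W] in
/-- quotients of root values at real vectors are real -/
theorem quot_real (s : W) {α : Module.Dual ℂ V} {β : V} (h : RootOf (s : V ≃ₗ[ℂ] V) α β)
    {u v : V} (hu : IsR b u) (hv : IsR b v) : (((α v)⁻¹ * α u : ℂ)).im = 0 := by
  have hβ : β ≠ 0 := by
    intro h0
    have := h.two
    rw [h0, map_zero] at this
    exact two_ne_zero this.symm
  obtain ⟨j, hj⟩ : ∃ j, b.repr β j ≠ 0 := by
    by_contra h0
    push Not at h0
    apply hβ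
    apply b.repr.injective
    rw [map_zero]
    exact Finsupp.ext h0
  have key : ∀ x, IsR b x → (α x * b.repr β j).im = 0 := by
    intro x hx
    have h1 := hx j
    have h2 := IsR_smul b hb s hx j
    rw [h.eq, map_sub, map_smul, Finsupp.sub_apply, Finsupp.smul_apply, Complex.sub_im, h1,
      smul_eq_mul, zero_sub, neg_eq_zero] at h2
    exact h2
  have e : (α v)⁻¹ * α u = (α v * b.repr β j)⁻¹ * (α u * b.repr β j) := by
    rw [mul_inv]
    field_simp
  rw [e, Complex.mul_im, Complex.inv_im, key v hv, key u hu]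
  simp

/-- the normalized roots -/
noncomputable def ar (R : Roots W) (v : V) (s : W) : Module.Dual ℂ V := (R.α s v)⁻¹ • R.α s

variable (W) in
open Classical in
/-- the reflections -/
noncomputable def Rfl : Finset W := Finset.univ.filter fun s => IsReflection (s : V ≃ₗ[ℂ] V)

theorem mem_Rfl (s : W) : s ∈ Rfl W ↔ IsReflection (s : V ≃ₗ[ℂ] V) := by
  classical
  unfold Rfl
  simp

theorem ar_v (R : Roots W) {v : V} {s : W} (h : R.α s v ≠ 0) : ar R v s v = 1 :=
  inv_mul_cancel₀ h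

include hb in
theorem beta_f (R : Roots W) (s : W) (hs : IsReflection (s : V ≃ₗ[ℂ] V)) (f : Module.Dual ℂ V) :
    f (R.β s) * Bf W b (R.α s) (R.α s) = 2 * Bf W b f (R.α s) := by
  have h := R.h s hs
  have h3 := Bf_act W b s f (R.α s)
  rw [h.act_root, h.act, ← neg_one_smul ℂ (R.α s), Bf_smul', Bf_sub, Bf_smul] at h3
  linear_combination h3

include hb in
theorem dat (R : Roots W) (hinv : ∀ s : W, IsReflection (s : V ≃ₗ[ℂ] V) → s * s = 1) {v : V}
    (hv : IsR b v) (hreg : ∀ s : W, IsReflection (s : V ≃ₗ[ℂ] V) → R.α s v ≠ 0) :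
    Dat (rr W) (Br W b) (evr v) (Rfl W) (ar R v) where
  ev1 s hs := by
    rw [evr_apply, ar_v R (hreg s ((mem_Rfl s).1 hs)), Complex.one_re]
  cj w s hs := by
    have hs' := (mem_Rfl s).1 hs
    have ht : IsReflection ((w * s * w⁻¹ : W) : V ≃ₗ[ℂ] V) :=
      isReflection_conj (w : V ≃ₗ[ℂ] V) _ hs'
    refine ⟨(mem_Rfl _).2 ht, ((R.α s v)⁻¹ * R.α s (((w⁻¹ : W) : V ≃ₗ[ℂ] V) v)).re, ?_⟩
    have hr : ((((R.α s v)⁻¹ * R.α s (((w⁻¹ : W) : V ≃ₗ[ℂ] V) v)).re : ℝ) : ℂ) =
        (R.α s v)⁻¹ * R.α s (((w⁻¹ : W) : V ≃ₗ[ℂ] V) v) := by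
      apply Complex.ext
      · rw [Complex.ofReal_re]
      · rw [Complex.ofReal_im, quot_real b hb s (R.h s hs') (IsR_smul b hb w⁻¹ hv) hv]
    set t : W := w * s * w⁻¹ with htd
    -- proportionality
    have h1 : ∀ u, R.α t u • R.β t = R.α s (((w⁻¹ : W) : V ≃ₗ[ℂ] V) u) •
        (w : V ≃ₗ[ℂ] V) (R.β s) := by
      intro u
      have e1 := (R.h t ht).eq u
      have e2 : (t : V ≃ₗ[ℂ] V) u =
          (w : V ≃ₗ[ℂ] V) ((s : V ≃ₗ[ℂ] V) (((w⁻¹ : W) : V ≃ₗ[ℂ] V) u)) := rfl
      have e3 : (w : V ≃ₗ[ℂ] V) (((w⁻¹ : W) : V ≃ₗ[ℂ] V) u) = u :=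
        (w : V ≃ₗ[ℂ] V).apply_symm_apply u
      rw [e2, (R.h s hs').eq, map_sub, map_smul, e3] at e1
      exact (sub_right_injective e1).symm
    set κ : ℂ := R.α t ((w : V ≃ₗ[ℂ] V) (R.β s)) / 2 with hκ
    have h2 : ∀ u, R.α t u = κ * R.α s (((w⁻¹ : W) : V ≃ₗ[ℂ] V) u) := by
      intro u
      have := congrArg (R.α t) (h1 u)
      rw [map_smul, map_smul, (R.h t ht).two, smul_eq_mul, smul_eq_mul] at this
      rw [hκ]
      linear_combination this / 2
    have hκ0 : κ ≠ 0 := by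
      intro h0
      have := h2 v
      rw [h0, zero_mul] at this
      exact hreg t ht this
    have h0v : R.α s (((w⁻¹ : W) : V ≃ₗ[ℂ] V) v) ≠ 0 := by
      intro h0
      have := h2 v
      rw [h0, mul_zero] at this
      exact hreg t ht this
    apply LinearMap.ext
    intro u
    change (R.α s v)⁻¹ * R.α s (((w⁻¹ : W) : V ≃ₗ[ℂ] V) u) =
      ((((R.α s v)⁻¹ * R.α s (((w⁻¹ : W) : V ≃ₗ[ℂ] V) v)).re : ℝ) : ℂ) *
        ((R.α t v)⁻¹ * R.α t u)
    rw [hr, h2 u, h2 v]
    field_simp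
  rf s hs t ht := by
    have hs' := (mem_Rfl s).1 hs
    have ht' := (mem_Rfl t).1 ht
    set k : ℂ := ar R v t (R.β s) * R.α s v with hk
    have h1 : act (s : V ≃ₗ[ℂ] V) (ar R v t) = ar R v t - k • ar R v s := by
      rw [(R.h s hs').act]
      unfold ar at hk ⊢
      rw [hk, smul_smul, mul_assoc, mul_inv_cancel₀ (hreg s hs'), mul_one]
    have h2 : k.im = 0 := by
      have h3 := congrArg (fun f : Module.Dual ℂ V => f v) h1
      have h4 : act (s : V ≃ₗ[ℂ] V) (ar R v t) v =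
        (R.α t v)⁻¹ * R.α t (((s⁻¹ : W) : V ≃ₗ[ℂ] V) v) := rfl
      simp only [LinearMap.sub_apply, LinearMap.smul_apply, smul_eq_mul] at h3
      rw [ar_v R (hreg s hs'), ar_v R (hreg t ht'), h4, mul_one] at h3
      have h5 : k = 1 - (R.α t v)⁻¹ * R.α t (((s⁻¹ : W) : V ≃ₗ[ℂ] V) v) := by
        rw [h3]; ring
      rw [h5, Complex.sub_im, quot_real b hb t (R.h t ht') (IsR_smul b hb s⁻¹ hv) hv]
      simp
    refine ⟨k.re, ?_⟩
    have h3 : ((k.re : ℝ) : ℂ) = k := by
      apply Complex.ext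
      · rw [Complex.ofReal_re]
      · rw [Complex.ofReal_im, h2]
    change act (s : V ≃ₗ[ℂ] V) (ar R v t) = ar R v t - ((k.re : ℝ) : ℂ) • ar R v s
    rw [h3, h1]
  ng s hs := by
    have hs' := (mem_Rfl s).1 hs
    change act (s : V ≃ₗ[ℂ] V) ((R.α s v)⁻¹ • R.α s) = -((R.α s v)⁻¹ • R.α s)
    have h1 : act (s : V ≃ₗ[ℂ] V) ((R.α s v)⁻¹ • R.α s) =
        (R.α s v)⁻¹ • act (s : V ≃ₗ[ℂ] V) (R.α s) := rfl
    rw [h1, (R.h s hs').act_root, smul_neg]
  inv w x y := Br_inv b w x y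
  pos x hx := Br_pos b x hx
  sq s hs := hinv s ((mem_Rfl s).1 hs)
  inj s hs t ht hst := by
    have hs' := (mem_Rfl s).1 hs
    have ht' := (mem_Rfl t).1 ht
    set κ : ℂ := R.α s v * (R.α t v)⁻¹ with hκ
    have hκ0 : κ ≠ 0 := mul_ne_zero (hreg s hs') (inv_ne_zero (hreg t ht'))
    have h1 : R.α s = κ • R.α t := by
      have : R.α s = R.α s v • ar R v s := by
        unfold ar
        rw [smul_smul, mul_inv_cancel₀ (hreg s hs'), one_smul]
      rw [this, hst]
      unfold ar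
      rw [smul_smul]
    have h2 := Bf_pos b hb t (R.h t ht')
    have h3 : ∀ f : Module.Dual ℂ V, f (R.β s) * κ = f (R.β t) := by
      intro f
      have e1 := beta_f b hb R s hs' f
      have e2 := beta_f b hb R t ht' f
      rw [h1, Bf_smul, Bf_smul', Bf_smul'] at e1
      have e3 : (κ * Bf W b (R.α t) (R.α t)) * (f (R.β s) * κ) =
          (κ * Bf W b (R.α t) (R.α t)) * f (R.β t) := by
        linear_combination e1 - κ * e2
      exact mul_left_cancel₀ (mul_ne_zero hκ0 h2) e3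
    have h4 : R.β t = κ • R.β s := by
      rw [← sub_eq_zero]
      by_contra h5
      obtain ⟨g, hg⟩ := Module.Projective.exists_dual_ne_zero ℂ h5
      apply hg
      rw [map_sub, map_smul, ← h3 g, smul_eq_mul]
      ring
    apply Subtype.ext
    apply LinearEquiv.ext
    intro u
    rw [(R.h s hs').eq, (R.h t ht').eq, h1, h4, LinearMap.smul_apply, smul_smul, smul_eq_mul]
    congr 2
    ring

end

end Pool.Agent.Y788.CE
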