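import Pool.Agent.H468R3.Dk6

set_option autoImplicit false

/-!
# Group elements in cellular algebras, and traces of conjugations on restricted Cherednik algebras
-/

open scoped BigOperators TensorProduct ComplexOrder

namespace Pool.Agent.Y788.CE

open Pool.Agent.H468R3

section matrix

variable {d : Type} [Fintype d] [DecidableEq d]

/-- the trace of the inverse of a complex matrix of finite order -/
theorem trace_inv (A B : Matrix d d ℂ) (hAB : A * B = 1) (n : ℕ) (hn : 0 < n) (hA : A ^ n = 1) :
    B.trace = star A.trace := by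
  set F : ℕ → Matrix d d ℂ := fun k => (A ^ k).conjTranspose * A ^ k with hF
  have hF0 : F 0 = 1 := by simp [hF]
  have hFn : F n = F 0 := by
    change (A ^ n).conjTranspose * A ^ n = (A ^ 0).conjTranspose * A ^ 0
    rw [hA, pow_zero]
  set H : Matrix d d ℂ := ∑ k ∈ Finset.range n, F k with hH
  have h1 : A.conjTranspose * H * A = H := by
    have e : A.conjTranspose * H * A = ∑ k ∈ Finset.range n, F (k + 1) := by
      rw [hH, Finset.mul_sum, Finset.sum_mul]
      refine Finset.sum_congr rfl fun k _ => ?_
      simp only [hF, pow_succ, Matrix.conjTranspose_mul, Matrix.mul_assoc]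
    have e1 := Finset.sum_range_succ F n
    have e2 := Finset.sum_range_succ' F n
    rw [e, hH]
    rw [e1, hFn] at e2
    exact (add_right_cancel e2).symm
  have h2 : H.PosDef := by
    obtain ⟨m, rfl⟩ : ∃ m, n = m + 1 := ⟨n - 1, by omega⟩
    rw [hH, Finset.sum_range_succ', hF0, add_comm]
    refine Matrix.PosDef.add_posSemidef Matrix.PosDef.one ?_
    exact Matrix.posSemidef_sum _ fun k _ => Matrix.posSemidef_conjTranspose_mul_self _
  obtain ⟨u, hu⟩ := h2.isUnit
  have h3 : A.conjTranspose * H = H * B := by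
    have := congrArg (· * B) h1
    simp only [Matrix.mul_assoc, hAB, Matrix.mul_one] at this
    exact this
  have h4 : B = (↑u⁻¹ : Matrix d d ℂ) * (A.conjTranspose * H) := by
    rw [h3, ← hu, ← Matrix.mul_assoc, Units.inv_mul, Matrix.one_mul]
  rw [h4, Matrix.trace_mul_comm, Matrix.mul_assoc, ← hu, Units.mul_inv, Matrix.mul_one,
    Matrix.trace_conjTranspose]

end matrix

section cell

variable {A : Type} [Ring A] [Algebra ℂ A]

/-- the trace of the inverse of an element of finite order -/
theorem tr_inv (g g' : A) (h : g * g' = 1) (n : ℕ) (hn : 0 < n) (hg : g ^ n = 1) (M : Type)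
    [AddCommGroup M] [Module ℂ M] [Module A M] [IsScalarTower ℂ A M] [FiniteDimensional ℂ M] :
    tr M g' = star (tr M g) := by
  classical
  unfold tr
  let b := Module.finBasis ℂ M
  rw [LinearMap.trace_eq_matrix_trace ℂ b, LinearMap.trace_eq_matrix_trace ℂ b]
  refine trace_inv _ _ ?_ n hn ?_
  · rw [← LinearMap.toMatrix_mul, ← map_mul, h, map_one]
    exact LinearMap.toMatrix_one b
  · have h1 : ∀ (f : Module.End ℂ M) (k : ℕ), LinearMap.toMatrix b b f ^ k =
        LinearMap.toMatrix b b (f ^ k) := by
      intro f k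
      induction k with
      | zero => rw [pow_zero, pow_zero]; exact (LinearMap.toMatrix_one b).symm
      | succ k ih => rw [pow_succ, pow_succ, ih, ← LinearMap.toMatrix_mul]
    rw [h1, ← map_pow, hg, map_one]
    exact LinearMap.toMatrix_one b

variable (D : CellDatum A)

theorem chi_eq_zero (g g' : A) (h : g * g' = 1) (n : ℕ) (hn : 0 < n) (hg : g ^ n = 1)
    (ht : LinearMap.trace ℂ A (CellDatum.bimul g g') = 0) (l : D.Λ) : D.chi l g = 0 := by
  rw [D.trace_bimul] at ht
  have h1 : ∀ l, D.chi l g * D.chi l (D.star g') = ((Complex.normSq (D.chi l g) : ℝ) : ℂ) := by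
    intro l
    rw [← D.tr_W l (D.star g'), D.tr_star, tr_inv g g' h n hn hg, D.tr_W]
    exact Complex.mul_conj _
  rw [Finset.sum_congr rfl fun l _ => h1 l, ← Complex.ofReal_sum, Complex.ofReal_eq_zero,
    Finset.sum_eq_zero_iff_of_nonneg fun l _ => Complex.normSq_nonneg _] at ht
  exact Complex.normSq_eq_zero.1 (ht l (Finset.mem_univ l))

include D in
/-- in a cellular algebra, an element of finite order with trace zero of its conjugation has trace
zero on all finite-dimensional modules -/
theorem tr_eq_zero (s s' : A) (hss : s * s' = 1) (n : ℕ) (hn : 0 < n) (hsn : s ^ n = 1)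
    (ht : LinearMap.trace ℂ A (CellDatum.bimul s s') = 0)
    (M : Type) [AddCommGroup M] [Module ℂ M] [Module A M] [IsScalarTower ℂ A M]
    [FiniteDimensional ℂ M] : tr M s = 0 := by
  have key : ∀ (l : D.Λ) (L : Type) [AddCommGroup L] [Module ℂ L] [Module A L]
      [IsScalarTower ℂ A L] [FiniteDimensional ℂ L], IsSimpleModule A L →
      (∃ (S T : D.M l) (v : L), D.C ⟨l, (S, T)⟩ • v ≠ 0) →
      (∀ m, m < l → ∀ (U V : D.M m) (v : L), D.C ⟨m, (U, V)⟩ • v = 0) → tr L s = 0 := by
    intro l
    induction l using WellFoundedGT.induction with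
    | ind l ih =>
      intro L _ _ _ _ _ hL h1 h2
      have e1 := D.tr_simple L hL l h1 h2 s
      rw [D.tr_W, chi_eq_zero D s s' hss n hn hsn ht] at e1
      have hfd : FiniteDimensional ℂ (D.rad l) :=
        inferInstanceAs (FiniteDimensional ℂ ((D.rad l).restrictScalars ℂ))
      have e2 : tr (D.rad l) s = tr (D.rad l) (0 : A) := by
        refine tr_eq_of_simple s 0 {c | ∃ (m : D.Λ) (U V : D.M m), ¬ l < m ∧ c = D.C ⟨m, (U, V)⟩}
          ?_ _ (D.rad l) rfl ?_
        · intro L' _ _ _ _ _ hL' hI
          rw [tr_zero]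
          have hnt : Nontrivial L' := hL'.nontrivial
          obtain ⟨m, ⟨S, T, v, hv⟩, h4⟩ := D.exists_min L'
          by_cases hm : l < m
          · exact ih m hm L' hL' ⟨S, T, v, hv⟩ h4
          · exact absurd (hI _ ⟨m, S, T, hm, rfl⟩ v) hv
        · rintro c ⟨m, U, V, hm, rfl⟩ v
          by_cases hlm : l ≤ m
          · have : m = l := by
              rcases hlm.lt_or_eq with h | h
              · exact absurd h hm
              · exact h.symm
            subst this
            apply Subtype.ext
            exact v.2 U V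
          · apply Subtype.ext
            exact D.C_smul_W hlm U V v.1
      rw [tr_zero] at e2
      rw [e2, zero_add] at e1
      exact e1.symm
  have h := tr_eq_of_simple s 0 ∅ (fun L _ _ _ _ _ hL _ => by
    have hnt : Nontrivial L := hL.nontrivial
    obtain ⟨l, h1, h2⟩ := D.exists_min L
    rw [tr_zero]
    exact key l L hL h1 h2) _ M rfl (fun c hc => absurd hc (Set.notMem_empty c))
  rw [h, tr_zero]

end cell

section conjug

variable {V : Type} [AddCommGroup V] [Module ℂ V] {W : Subgroup (V ≃ₗ[ℂ] V)} [Fintype W]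
  {c : W → ℂ} (R : Roots W) (hc : ∀ w s : W, c (w * s * w⁻¹) = c s)

/-- `σ_z ⊗ (a ↦ z a z')` -/
noncomputable def cj2 (z z' : W) : P W ⊗[ℂ] HH c →ₗ[ℂ] P W ⊗[ℂ] HH c :=
  TensorProduct.map (σ z).toLinearMap (CellDatum.bimul ((uni c).g z) ((uni c).g z'))

theorem mm_cj2 (z z' : W) (e : P W ⊗[ℂ] HH c) :
    mm c (cj2 z z' e) = CellDatum.bimul ((uni c).g z) ((uni c).g z') (mm c e) := by
  induction e using TensorProduct.induction_on with
  | zero => simp only [map_zero]
  | tmul p b =>
    change μ c (σ z p) * ((uni c).g z * (b * (uni c).g z')) =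
      (uni c).g z * (μ c p * b * (uni c).g z')
    rw [← mul_assoc, ← g_μ]
    simp only [mul_assoc]
  | add e e' he he' => simp only [map_add, he, he']

theorem jj_cj2 (z z' : W) (a : HH c) :
    jj R hc (CellDatum.bimul ((uni c).g z) ((uni c).g z') a) = cj2 z z' (jj R hc a) := by
  change jj R hc ((uni c).g z * (a * (uni c).g z')) = _
  rw [jj_mul, jj_mul, Φg]
  have h1 : jj R hc ((uni c).g z') =
      LinearMap.lTensor (P W) (LinearMap.mulRight ℂ ((uni c).g z')) (1 ⊗ₜ[ℂ] 1) := by
    rw [LinearMap.lTensor_tmul, LinearMap.mulRight_apply, one_mul, jj_apply, Φg, Go_tmul, map_one,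
      mul_one]
  rw [h1, Φ_right, ← jj_apply]
  generalize jj R hc a = e
  induction e using TensorProduct.induction_on with
  | zero => simp only [map_zero]
  | tmul p b => rfl
  | add e e' he he' => simp only [map_add, he, he']

include R hc in
theorem trace_conj [FiniteDimensional ℂ (HH c)] (z z' : W) (φ φ' : Module.End ℂ (P W))
    (h1 : φ * φ' = 1) (h2 : φ' * φ = 1) (t : ℂ) (ht : t ≠ 1)
    (h : ∀ p, φ (σ z p) = t • σ z (φ p)) :
    LinearMap.trace ℂ (HH c) (CellDatum.bimul ((uni c).g z) ((uni c).g z')) = 0 := by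
  set f : Module.End ℂ (HH c) := CellDatum.bimul ((uni c).g z) ((uni c).g z') with hf
  have hone : op R hc (1 : Module.End ℂ (P W)) = 1 := by
    have := op_smul_one R hc 1
    rwa [one_smul, one_smul] at this
  set T : Module.End ℂ (HH c) := op R hc φ with hT
  set T' : Module.End ℂ (HH c) := op R hc φ' with hT'
  have e1 : T * T' = 1 := by rw [hT, hT', ← op_mul, h1, hone]
  have e2 : T' * T = 1 := by rw [hT, hT', ← op_mul, h2, hone]
  have h4 : T * f = t • (f * T) := by
    apply LinearMap.ext
    intro a
    rw [Module.End.mul_apply, LinearMap.smul_apply, Module.End.mul_apply, hT, op_apply, hf, jj_cj2,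
      op_apply, ← mm_cj2, ← map_smul]
    congr 1
    generalize jj R hc a = e
    induction e using TensorProduct.induction_on with
    | zero => simp only [map_zero, smul_zero]
    | tmul p b =>
      change (φ (σ z p)) ⊗ₜ[ℂ] _ = t • ((σ z (φ p)) ⊗ₜ[ℂ] _)
      rw [h, TensorProduct.smul_tmul']
      rfl
    | add e e' he he' => simp only [map_add, he, he', smul_add]
  have h5 : LinearMap.trace ℂ (HH c) ((T * f) * T') = LinearMap.trace ℂ (HH c) f := by
    rw [LinearMap.trace_mul_comm, ← mul_assoc, e2, one_mul]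
  rw [h4, smul_mul_assoc, mul_assoc, e1, mul_one, map_smul, smul_eq_mul] at h5
  have h6 : (t - 1) * LinearMap.trace ℂ (HH c) f = 0 := by linear_combination h5
  exact (mul_eq_zero.1 h6).resolve_left (sub_ne_zero.2 ht)

end conjug

/-- **Criterion.** If `H̄_c(W)` is cellular and an operator on the coinvariant algebra with inverse
multiplies under conjugation by `z` with a factor different from one, then `z` has trace zero on
every finite-dimensional module. -/
theorem tr_zero {V : Type} [AddCommGroup V] [Module ℂ V] {W : Subgroup (V ≃ₗ[ℂ] V)}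
    [Fintype W] {c : W → ℂ} (R : Roots W) (hc : ∀ w s : W, c (w * s * w⁻¹) = c s)
    (D : CellDatum (HH c)) (z : W) (φ φ' : Module.End ℂ (P W))
    (h1 : φ * φ' = 1) (h2 : φ' * φ = 1) (t : ℂ) (ht : t ≠ 1)
    (h : ∀ p, φ (σ z p) = t • σ z (φ p))
    (M : Type) [AddCommGroup M] [Module ℂ M] [Module (HH c) M] [IsScalarTower ℂ (HH c) M]
    [FiniteDimensional ℂ M] : tr M ((uni c).g z) = 0 := by
  have hfd : FiniteDimensional ℂ (HH c) := Module.Finite.of_basis D.C
  have hfin : Finite W := inferInstance
  refine tr_eq_zero D ((uni c).g z) ((uni c).g z⁻¹) ?_ (orderOf z) (orderOf_pos z) ?_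
    (trace_conj R hc z z⁻¹ φ φ' h1 h2 t ht h) M
  · rw [← map_mul, mul_inv_cancel, map_one]
  · rw [← map_pow, pow_orderOf_eq_one, map_one]

end Pool.Agent.Y788.CE
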